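import Mathlib.Data.List.Chain
import Mathlib.Data.List.Nodup
import Mathlib.Data.Nat.Bitwise

/-! Boards of side three: the search procedures and what they decide. -/

namespace Pool.Agent.MP_3c4208_co.T3

/-- the neighbours of a cell; the index nine stands for the start -/
def nbl : ℕ → List ℕ
  | 0 => [1, 3, 4]
  | 1 => [0, 2, 3, 4, 5]
  | 2 => [1, 4, 5]
  | 3 => [0, 1, 4, 6, 7]
  | 4 => [0, 1, 2, 3, 5, 6, 7, 8]
  | 5 => [1, 2, 4, 7, 8]
  | 6 => [3, 4, 7]
  | 7 => [3, 4, 5, 6, 8]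
  | 8 => [4, 5, 7]
  | _ => [0, 1, 2, 3, 4, 5, 6, 7, 8]

def dg (X i : ℕ) : ℕ := Nat.mod (Nat.div X (Nat.pow 4 i)) 4

def tb (v c : ℕ) : Bool := Nat.beq (Nat.land 1 (Nat.shiftRight v c)) 0

def ad (v c : ℕ) : ℕ := Nat.lor v (Nat.pow 2 c)

def Pth : ℕ → ℕ → List ℕ → Prop
  | _, _, [] => True
  | cur, vis, c :: q => c ∈ nbl cur ∧ vis.testBit c = false ∧ Pth c (vis ||| 2 ^ c) q

noncomputable section

/-- evaluation of the argument comes first -/
def frc (f : ℕ → Bool) (k : ℕ) : Bool := Nat.rec (f 0) (fun k _ => f (Nat.succ k)) k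

def any' (l : List ℕ) (p : ℕ → Bool) : Bool := List.rec false (fun a _ r => (p a).rec r true) l

def all' (l : List ℕ) (p : ℕ → Bool) : Bool := List.rec true (fun a _ r => (p a).rec false r) l

def go (X : ℕ) (w : List ℕ) : ℕ → ℕ → Bool :=
  List.rec (fun _ _ => true) (fun a _ r cur vis => any' (nbl cur) fun c =>
    (Nat.beq (dg X c) a).rec false ((tb vis c).rec false (frc (r c) (ad vis c)))) w

def allp (ok : ℕ → Bool) (X f : ℕ) : ℕ → ℕ → ℕ → Bool :=
  Nat.rec (fun _ _ r => ok r) (fun _ g cur vis r => (ok r).rec false (all' (nbl cur) fun c =>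
    (tb vis c).rec true (frc (fun v => frc (g c v) (Nat.add (dg X c) (Nat.mul 4 r))) (ad vis c)))) f

def dec (f : ℕ) : ℕ → List ℕ :=
  Nat.rec (fun _ => []) (fun _ g x => (Nat.ble x 1).rec (Nat.mod x 4 :: g (Nat.div x 4)) []) f

def wd (x : ℕ) : List ℕ := Nat.mod x 4 :: Nat.mod (Nat.div x 4) 4 :: dec 7 (Nat.div x 16)

def enc (r : List ℕ) : ℕ := List.rec 1 (fun a _ s => Nat.add a (Nat.mul 4 s)) r

inductive T
  | l (v : ℕ) : T
  | n (k : ℕ) (a b : T) : T

/-- a decision tree -/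
def T.ev (X : ℕ) (t : T) : ℕ := T.rec (fun v => v) (fun k _ _ a b => (go X (wd k) 9 0).rec b a) t

/-- a search tree -/
def T.find (x : ℕ) (t : T) : ℕ := T.rec (fun v => v) (fun k _ _ a b => (Nat.ble k x).rec a b) t

def T.all (p : ℕ → Bool) (t : T) : Bool := T.rec p (fun _ _ _ a b => a.rec false b) t

def en (f : ℕ → Bool) (k : ℕ) : ℕ → ℕ → ℕ → ℕ → ℕ → Bool :=
  Nat.rec (fun _ _ _ _ s => f s) (fun _ g a b c d s =>
    (Nat.rec true (fun a _ => g a b c d (Nat.mul 4 s)) a : Bool).rec false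
    ((Nat.rec true (fun b _ => g a b c d (Nat.add (Nat.mul 4 s) 1)) b : Bool).rec false
    ((Nat.rec true (fun c _ => g a b c d (Nat.add (Nat.mul 4 s) 2)) c : Bool).rec false
    (Nat.rec true (fun d _ => g a b c d (Nat.add (Nat.mul 4 s) 3)) d : Bool)))) k

def symc (p : List ℕ) (X : ℕ) : ℕ := List.rec 0 (fun i _ s => Nat.add (dg X i) (Nat.mul 4 s)) p

def syms : List (List ℕ) := [[8, 7, 6, 5, 4, 3, 2, 1, 0], [2, 1, 0, 5, 4, 3, 8, 7, 6],
  [6, 7, 8, 3, 4, 5, 0, 1, 2], [0, 3, 6, 1, 4, 7, 2, 5, 8], [8, 5, 2, 7, 4, 1, 6, 3, 0],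
  [6, 3, 0, 7, 4, 1, 8, 5, 2], [2, 5, 8, 1, 4, 7, 0, 3, 6]]

def low (X : ℕ) (S : List (List ℕ)) : Bool :=
  List.rec false (fun p _ r => (Nat.ble X (symc p X)).rec true r) S

def leaf (t : T) (X : ℕ) : Bool := (low X syms).rec (Nat.beq (t.ev X) X) true

def chk (a b c d : ℕ) (t : T) : Bool := en (frc (leaf t)) 9 a b c d 0

def eqv (X Y : ℕ) (t : T) : Bool :=
  (allp (fun r => (Nat.ble r 15).rec (Nat.beq (t.find r) r) true) X 9 9 0 1).rec false
    (t.all fun v => go Y (wd v) 9 0)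

end

theorem frc_eq (f : ℕ → Bool) (k : ℕ) : frc f k = f k := by cases k <;> rfl

theorem rec_and (a b : Bool) : (a.rec false b : Bool) = true ↔ a = true ∧ b = true := by
  cases a <;> simp

theorem rec_or (a b : Bool) : (a.rec b true : Bool) = true ↔ a = true ∨ b = true := by
  cases a <;> simp

theorem rec_imp (a b : Bool) : (a.rec true b : Bool) = true ↔ (a = true → b = true) := by
  cases a <;> simp

theorem any_iff (l : List ℕ) (p : ℕ → Bool) : any' l p = true ↔ ∃ a ∈ l, p a = true := by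
  induction l with
  | nil => simp [any']
  | cons a l ih => exact (rec_or _ _).trans (by rw [List.exists_mem_cons_iff, ← ih]; rfl)

theorem all_iff (l : List ℕ) (p : ℕ → Bool) : all' l p = true ↔ ∀ a ∈ l, p a = true := by
  induction l with
  | nil => simp [all']
  | cons a l ih => exact (rec_and _ _).trans (by rw [List.forall_mem_cons, ← ih]; rfl)

theorem tb_iff (v c : ℕ) : tb v c = true ↔ v.testBit c = false := by
  rw [tb, Nat.beq_eq, Nat.testBit, bne_eq_false_iff_eq]
  rfl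

theorem go_cons (X a : ℕ) (w : List ℕ) (cur vis : ℕ) : go X (a :: w) cur vis = true ↔
    ∃ c ∈ nbl cur, dg X c = a ∧ vis.testBit c = false ∧ go X w c (vis ||| 2 ^ c) = true := by
  refine (any_iff _ _).trans (exists_congr fun c => and_congr_right fun _ => ?_)
  rw [rec_and, rec_and, Nat.beq_eq, tb_iff, frc_eq]
  rfl

theorem go_iff (X : ℕ) (w : List ℕ) : ∀ cur vis, go X w cur vis = true ↔
    ∃ q, Pth cur vis q ∧ q.map (dg X) = w := by
  induction w with
  | nil => exact fun _ _ => ⟨fun _ => ⟨[], trivial, rfl⟩, fun _ => rfl⟩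
  | cons a w ih =>
    intro cur vis
    simp only [go_cons, ih]
    constructor
    · rintro ⟨c, h1, rfl, h2, q, h3, rfl⟩
      exact ⟨c :: q, ⟨h1, h2, h3⟩, rfl⟩
    · rintro ⟨_ | ⟨c, q⟩, h1, h2⟩
      · simp at h2
      · rw [List.map_cons, List.cons.injEq] at h2
        exact ⟨c, h1.1, h2.1, h1.2.1, q, h1.2.2, h2.2⟩

theorem allp_ok {ok : ℕ → Bool} {X : ℕ} (q : List ℕ) : ∀ f cur vis r, q.length ≤ f →
    Pth cur vis q → allp ok X f cur vis (enc r) = true →
      ok (enc ((q.map (dg X)).reverse ++ r)) = true := by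
  induction q with
  | nil =>
    intro f _ _ r _ _ h
    cases f with
    | zero => exact h
    | succ f => exact ((rec_and _ _).1 h).1
  | cons c q ih =>
    intro f cur vis r hf hp h
    cases f with
    | zero => simp at hf
    | succ f =>
      have h1 := (rec_imp _ _).1 ((all_iff _ _).1 ((rec_and _ _).1 h).2 c hp.1) ((tb_iff _ _).2 hp.2.1)
      rw [frc_eq, frc_eq] at h1
      simpa using ih f c _ (dg X c :: r) (by simpa using hf) hp.2.2 h1

theorem pth_iff (q : List ℕ) : ∀ cur vis, Pth cur vis q ↔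
    (cur :: q).IsChain (fun a b => b ∈ nbl a) ∧ q.Nodup ∧ ∀ c ∈ q, vis.testBit c = false := by
  induction q with
  | nil => simp [Pth]
  | cons c q ih =>
    intro cur vis
    simp only [Pth, ih, List.isChain_cons_cons, List.nodup_cons, List.forall_mem_cons, Nat.testBit_or,
      Nat.testBit_two_pow, Bool.or_eq_false_iff, decide_eq_false_iff_not]
    exact ⟨fun ⟨a, b, d, e, f⟩ => ⟨⟨a, d⟩, ⟨fun h => (f c h).2 rfl, e⟩, b, fun x h => (f x h).1⟩,
      fun ⟨⟨a, d⟩, ⟨g, e⟩, b, f⟩ => ⟨a, b, d, e, fun x h => ⟨f x h, fun u => g (u ▸ h)⟩⟩⟩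

theorem enc_cons (a : ℕ) (r : List ℕ) : enc (a :: r) = a + 4 * enc r := rfl

theorem enc_pos (r : List ℕ) : 1 ≤ enc r := by
  induction r with
  | nil => exact le_rfl
  | cons a r ih => rw [enc_cons]; omega

theorem dec_enc (r : List ℕ) : ∀ f, r.length ≤ f → (∀ a ∈ r, a < 4) → dec f (enc r) = r := by
  induction r with
  | nil => intro f _ _; cases f <;> rfl
  | cons a r ih =>
    intro f hf h
    cases f with
    | zero => simp at hf
    | succ f =>
      have a4 := h a (by simp)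
      have := enc_pos r
      have e : Nat.ble (a + 4 * enc r) 1 = false := by
        rw [← Bool.not_eq_true, Nat.ble_eq]; omega
      show ((Nat.ble (a + 4 * enc r) 1).rec ((a + 4 * enc r) % 4 :: dec f ((a + 4 * enc r) / 4)) [] :
        List ℕ) = _
      rw [e, show (a + 4 * enc r) % 4 = a by omega, show (a + 4 * enc r) / 4 = enc r by omega,
        ih f (by simpa using hf) fun b hb => h b (by simp [hb])]

theorem wd_enc {r : List ℕ} (h2 : 2 ≤ r.length) (h9 : r.length ≤ 9) (h : ∀ a ∈ r, a < 4) :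
    16 ≤ enc r ∧ wd (enc r) = r := by
  obtain _ | ⟨a, _ | ⟨b, r⟩⟩ := r
  · simp at h2
  · simp at h2
  have a4 := h a (by simp)
  have b4 := h b (by simp)
  have := enc_pos r
  rw [enc_cons, enc_cons]
  refine ⟨by omega, ?_⟩
  show (a + 4 * (b + 4 * enc r)) % 4 :: (a + 4 * (b + 4 * enc r)) / 4 % 4 ::
    dec 7 ((a + 4 * (b + 4 * enc r)) / 16) = _
  rw [show (a + 4 * (b + 4 * enc r)) % 4 = a by omega, show (a + 4 * (b + 4 * enc r)) / 4 % 4 = b by omega,
    show (a + 4 * (b + 4 * enc r)) / 16 = enc r by omega,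
    dec_enc r 7 (by simpa using h9) fun c hc => h c (by simp [hc])]

theorem find_all {p : ℕ → Bool} (x : ℕ) (t : T) (h : t.all p = true) : p (t.find x) = true := by
  induction t with
  | l v => exact h
  | n k a b iha ihb =>
    have h' := (rec_and _ _).1 h
    show p ((Nat.ble k x).rec (a.find x) (b.find x)) = true
    cases Nat.ble k x
    exacts [iha h'.1, ihb h'.2]

theorem ev_congr {X Y : ℕ} (h : ∀ k, go X (wd k) 9 0 = go Y (wd k) 9 0) (t : T) :
    t.ev X = t.ev Y := by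
  induction t with
  | l v => rfl
  | n k a b iha ihb =>
    show ((go X (wd k) 9 0).rec (b.ev X) (a.ev X) : ℕ) = (go Y (wd k) 9 0).rec (b.ev Y) (a.ev Y)
    rw [h, iha, ihb]

theorem en_ok {f : ℕ → Bool} (l : List ℕ) : ∀ s, (∀ x ∈ l, x < 4) →
    en f l.length (l.count 0) (l.count 1) (l.count 2) (l.count 3) s = true →
    f (l.foldl (fun s x => 4 * s + x) s) = true := by
  induction l with
  | nil => exact fun _ _ h => h
  | cons x l ih =>
    intro s h4 h
    have hx := h4 x (by simp)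
    refine ih _ (fun y hy => h4 y (by simp [hy])) ?_
    obtain rfl | rfl | rfl | rfl : x = 0 ∨ x = 1 ∨ x = 2 ∨ x = 3 := by omega
    all_goals
      simp only [List.count_cons, List.length_cons, beq_iff_eq, OfNat.ofNat_ne_zero, OfNat.zero_ne_ofNat,
        OfNat.ofNat_ne_one, OfNat.one_ne_ofNat, Nat.reduceEqDiff, if_true, if_false, add_zero,
        one_ne_zero, zero_ne_one] at h
      have h1 := (rec_and _ _).1 h
      have h2 := (rec_and _ _).1 h1.2
      have h3 := (rec_and _ _).1 h2.2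
    exacts [h1.1, h2.1, h3.1, h3.2]

theorem low_iff (X : ℕ) (S : List (List ℕ)) (h : ∀ p ∈ S, X ≤ symc p X) : low X S = false := by
  induction S with
  | nil => rfl
  | cons p S ih =>
    show ((Nat.ble X (symc p X)).rec true (low X S) : Bool) = false
    rw [Nat.ble_eq_true_of_le (h p (by simp))]
    exact ih fun q hq => h q (by simp [hq])

theorem leaf_ok {t : T} {X : ℕ} (h : leaf t X = true) (hX : ∀ p ∈ syms, X ≤ symc p X) :
    t.ev X = X := by
  rw [leaf, low_iff X _ hX] at h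
  exact Nat.eq_of_beq_eq_true h

/-- what the comparison of two boards proves -/
theorem eqv_ok {X Y : ℕ} {t : T} (h : eqv X Y t = true) {q : List ℕ} (hq : Pth 9 0 q)
    (h2 : 2 ≤ q.length) (h9 : q.length ≤ 9) : go Y (q.map (dg X)).reverse 9 0 = true := by
  obtain ⟨h1, h3⟩ := (rec_and _ _).1 h
  have a := allp_ok q 9 9 0 [] h9 hq h1
  rw [List.append_nil] at a
  obtain ⟨b, c⟩ := wd_enc (r := (q.map (dg X)).reverse) (by simpa using h2) (by simpa using h9)
    fun x hx => by
      obtain ⟨y, -, rfl⟩ := List.mem_map.1 (List.mem_reverse.1 hx)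
      exact Nat.mod_lt _ (by omega)
  have d := ((rec_or _ _).1 a).resolve_left (by rw [Nat.ble_eq]; omega)
  have e := find_all (enc (q.map (dg X)).reverse) t h3
  rwa [Nat.eq_of_beq_eq_true d, c] at e

end Pool.Agent.MP_3c4208_co.T3
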