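import Mathlib.Data.Fintype.Pi
import Mathlib.Data.Fintype.Pigeonhole
import Mathlib.Data.Finset.Max
import Mathlib.Data.Finset.Sort
import Mathlib.Data.Fin.Tuple.Sort
import Mathlib.Tactic.FinCases
import Mathlib.Tactic.IntervalCases
import Pool.Agent.MP_3c4208_co.Defs
import Pool.Agent.MP_3c4208_co.T3.Alg

/-! Boards of side three: from the definitions to the search procedures. -/

namespace Pool.Agent.MP_3c4208_co.T3

abbrev C : Type := Fin 3 × Fin 3

def idx (c : C) : ℕ := 3 * c.1 + c.2

def cell (i : ℕ) : C := (⟨i / 3 % 3, Nat.mod_lt _ (by omega)⟩, ⟨i % 3, Nat.mod_lt _ (by omega)⟩)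

instance (a b : C) : Decidable (KingAdj a b) := by unfold KingAdj; infer_instance

theorem cell_idx : ∀ c : C, cell (idx c) = c := by decide

theorem adj_iff : ∀ a b : C, KingAdj a b ↔ idx b ∈ nbl (idx a) := by decide

theorem idx_top : ∀ c : C, idx c ∈ nbl 9 := by decide

theorem nbl_cell (i j : ℕ) (h : j ∈ nbl i) : idx (cell j) = j := by
  have : ∀ j ∈ nbl 9, idx (cell j) = j := by decide
  refine this j ?_
  unfold nbl at h
  split at h <;> revert j <;> decide

theorem idx_inj : Function.Injective idx := Function.LeftInverse.injective cell_idx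

theorem pth_of {p : List C} (h1 : p.Nodup) (h2 : p.IsChain KingAdj) : Pth 9 0 (p.map idx) := by
  refine (pth_iff _ _ _).2 ⟨?_, h1.map idx_inj, fun _ _ => Nat.zero_testBit _⟩
  rw [List.isChain_cons]
  refine ⟨fun y hy => ?_, (List.isChain_map _).2 (h2.imp fun a b h => (adj_iff a b).1 h)⟩
  obtain ⟨c, -, rfl⟩ := List.mem_map.1 (List.mem_of_mem_head? hy)
  exact idx_top c

theorem of_pth {q : List ℕ} (h : Pth 9 0 q) :
    ∃ p : List C, p.Nodup ∧ p.IsChain KingAdj ∧ p.map idx = q := by
  obtain ⟨h1, h2, -⟩ := (pth_iff _ _ _).1 h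
  have e : (q.map cell).map idx = q := by
    rw [List.map_map]
    refine (List.map_congr_left fun j hj => ?_).trans (List.map_id q)
    have : ∀ (q : List ℕ) i, (i :: q).IsChain (fun a b => b ∈ nbl a) → ∀ j ∈ q, idx (cell j) = j := by
      intro q
      induction q with
      | nil => simp
      | cons a q ih =>
        intro i h
        rw [List.isChain_cons_cons] at h
        exact List.forall_mem_cons.2 ⟨nbl_cell i a h.1, ih a h.2⟩
    exact this q 9 h1 j hj
  refine ⟨q.map cell, List.Nodup.of_map idx (e.symm ▸ h2), ?_, e⟩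
  have h3 := h1.tail
  rw [List.tail_cons, ← e, List.isChain_map] at h3
  exact h3.imp fun a b h => (adj_iff a b).2 h

theorem mem_iff {B : C → ℕ} {X : ℕ} (h : ∀ c, dg X (idx c) = B c) (w : List ℕ) :
    w ∈ words B ↔ 2 ≤ w.length ∧ go X w 9 0 = true := by
  have e : dg X ∘ idx = B := funext h
  rw [go_iff]
  constructor
  · rintro ⟨p, a, b, c, rfl⟩
    exact ⟨by simpa using a, _, pth_of b c, by rw [List.map_map, e]⟩
  · rintro ⟨a, q, b, rfl⟩
    obtain ⟨p, c, d, rfl⟩ := of_pth b
    exact ⟨p, by simpa using a, c, d, by rw [List.map_map, e]⟩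

theorem adj_symm : ∀ a b : C, KingAdj a b → KingAdj b a := by decide

theorem sub_of {X Y : ℕ} {t : T} (h : eqv X Y t = true) :
    words (fun c : C => dg X (idx c)) ⊆ words fun c : C => dg Y (idx c) := by
  rintro _ ⟨p, a, b, c, rfl⟩
  have k := eqv_ok h (pth_of (p := p.reverse) (List.nodup_reverse.2 b)
    (List.isChain_reverse.2 (c.imp fun a b h => adj_symm a b h))) (by simpa using a)
    (by simpa using b.length_le_card)
  refine (mem_iff (fun _ => rfl) _).2 ⟨by simpa using a, ?_⟩
  rwa [List.map_map, List.map_reverse, List.reverse_reverse] at k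

theorem words_map {B B' : C → ℕ} (f : ℕ → ℕ) (h : words B' = words B) :
    words (f ∘ B') = words (f ∘ B) := by
  have : ∀ {B B' : C → ℕ}, words B' ⊆ words B → words (f ∘ B') ⊆ words (f ∘ B) := by
    rintro B B' h _ ⟨p, a, b, c, rfl⟩
    obtain ⟨p', a', b', c', e⟩ := h ⟨p, a, b, c, rfl⟩
    exact ⟨p', a', b', c', by rw [← List.map_map, e, List.map_map]⟩
  exact Set.Subset.antisymm (this h.le) (this h.ge)

/-! ### symmetries -/

abbrev S : Type := Bool × Bool × Bool

def sy (s : S) : C → C := squareSym s.1 s.2.1 s.2.2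

def Sy (B B' : C → ℕ) : Prop := ∃ s, B' = B ∘ sy s

theorem sy_mul : ∀ s t : S, ∃ u, ∀ c, sy s (sy t c) = sy u c := by decide

theorem sy_inv : ∀ s : S, ∃ u, ∀ c, sy s (sy u c) = c ∧ sy u (sy s c) = c := by decide

theorem sy_adj : ∀ (s : S) a b, KingAdj a b → KingAdj (sy s a) (sy s b) := by decide

theorem words_sy (B : C → ℕ) (s : S) : words (B ∘ sy s) = words B := by
  have : ∀ (B : C → ℕ) (s : S), words (B ∘ sy s) ⊆ words B := by
    rintro B s _ ⟨p, a, b, c, rfl⟩
    obtain ⟨u, hu⟩ := sy_inv s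
    exact ⟨p.map (sy s), by simpa using a,
      b.map (Function.LeftInverse.injective (g := sy u) fun c => (hu c).2),
      (List.isChain_map _).2 (c.imp fun a b h => sy_adj s a b h), (List.map_map ..).symm⟩
  refine Set.Subset.antisymm (this B s) ?_
  obtain ⟨u, hu⟩ := sy_inv s
  have h := this (B ∘ sy s) u
  rwa [show (B ∘ sy s) ∘ sy u = B from funext fun c => congrArg B (hu c).1] at h

def L : List C := [(2, 2), (2, 1), (2, 0), (1, 2), (1, 1), (1, 0), (0, 2), (0, 1), (0, 0)]

theorem perm_L {p : List C} (h : p.Nodup) (e : p.length = 9) : p.Perm L :=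
  (List.subperm_of_subset h fun c _ => (by decide : ∀ c : C, c ∈ L) c).perm_of_length_le (e ▸ le_rfl)

theorem perm_of {B B' : C → ℕ} (h : words B' = words B) : (L.map B').Perm (L.map B) := by
  have : [(0, 0), (0, 1), (0, 2), (1, 2), (1, 1), (1, 0), (2, 0), (2, 1), (2, 2)].map B ∈ words B :=
    ⟨_, by decide, by decide, by decide, rfl⟩
  obtain ⟨p, -, b, -, e⟩ := h ▸ this
  have l := congrArg List.length e
  rw [List.length_map, List.length_map] at l
  exact ((perm_L b l.symm).map B').symm.trans (e ▸ (perm_L (by decide) rfl).map B)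

def cnt (B : C → ℕ) (a : ℕ) : ℕ := (L.map B).count a

def code (B : C → ℕ) : ℕ := (L.map B).foldl (fun s x => 4 * s + x) 0

theorem dg_code {B : C → ℕ} (h : ∀ c, B c < 4) (c : C) : dg (code B) (idx c) = B c := by
  have := h (0, 0); have := h (0, 1); have := h (0, 2); have := h (1, 0); have := h (1, 1)
  have := h (1, 2); have := h (2, 0); have := h (2, 1); have := h (2, 2)
  show code B / 4 ^ idx c % 4 = B c
  simp only [code, L, List.map, List.foldl]
  obtain ⟨i, j⟩ := c
  fin_cases i <;> fin_cases j <;> simp only [idx, Fin.zero_eta, Fin.mk_one, Fin.reduceFinMk] <;> omega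

theorem syms_ok : ∀ p ∈ syms, ∃ s : S, p = L.reverse.map fun c => idx (sy s c) := by decide

theorem symc_code {B : C → ℕ} (h : ∀ c, B c < 4) (s : S) :
    symc (L.reverse.map fun c => idx (sy s c)) (code B) = code (B ∘ sy s) := by
  simp only [symc, L, List.reverse_cons, List.reverse_nil, List.nil_append, List.cons_append, List.map,
    dg_code h]
  simp only [code, L, List.map, List.foldl, Function.comp, Nat.add_eq, Nat.mul_eq]
  omega

/-- the least image of a board sits at its leaf -/
theorem least {t : T} {B : C → ℕ} (h : ∀ c, B c < 4)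
    (k : chk (cnt B 0) (cnt B 1) (cnt B 2) (cnt B 3) t = true) :
    ∃ s, t.ev (code (B ∘ sy s)) = code (B ∘ sy s) := by
  obtain ⟨s, -, hs⟩ := Finset.exists_min_image Finset.univ (fun s => code (B ∘ sy s))
    Finset.univ_nonempty
  have p := perm_of (words_sy B s)
  refine ⟨s, leaf_ok ?_ fun p hp => ?_⟩
  · rw [← frc_eq (leaf t)]
    refine en_ok (L.map (B ∘ sy s)) 0 (fun x hx => ?_) ?_
    · obtain ⟨c, -, rfl⟩ := List.mem_map.1 hx
      exact h _
    · rw [p.count_eq, p.count_eq, p.count_eq, p.count_eq]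
      exact k
  · obtain ⟨u, rfl⟩ := syms_ok p hp
    obtain ⟨v, hv⟩ := sy_mul s u
    rw [symc_code (B := B ∘ sy s) (fun c => h _), show (B ∘ sy s) ∘ sy u = B ∘ sy v from
      funext fun c => congrArg B (hv c)]
    exact hs v (Finset.mem_univ _)

theorem mem_of {B B' : C → ℕ} (h : words B' = words B) (c : C) : ∃ d, B d = B' c := by
  obtain ⟨d, -, e⟩ := List.mem_map.1 ((perm_of h).subset
    (List.mem_map_of_mem ((by decide : ∀ c : C, c ∈ L) c)))
  exact ⟨d, e⟩

theorem core {t : T} {B B' : C → ℕ} (h : ∀ c, B c < 4)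
    (k : chk (cnt B 0) (cnt B 1) (cnt B 2) (cnt B 3) t = true) (e : words B' = words B) :
    Sy B B' := by
  have h' : ∀ c, B' c < 4 := fun c => (mem_of e c).elim fun d u => u ▸ h d
  have p := perm_of e
  obtain ⟨s, hs⟩ := least h k
  obtain ⟨s', hs'⟩ := least (t := t) h' (by
    simp only [cnt, p.count_eq]
    exact k)
  have a : code (B' ∘ sy s') = code (B ∘ sy s) := by
    rw [← hs, ← hs']
    refine ev_congr (fun x => Bool.eq_iff_iff.2 ?_) t
    have u := mem_iff (dg_code (B := B ∘ sy s) fun c => h _) (wd x)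
    have v := mem_iff (dg_code (B := B' ∘ sy s') fun c => h' _) (wd x)
    rw [words_sy] at u v
    rw [e, u] at v
    have l : 2 ≤ (wd x).length := by simp [wd]
    simpa only [l, true_and] using v.symm
  obtain ⟨u, hu⟩ := sy_inv s'
  obtain ⟨v, hv⟩ := sy_mul s u
  refine ⟨v, funext fun c => ?_⟩
  have b := dg_code (B := B' ∘ sy s') (fun c => h' _) (sy u c)
  rw [a, dg_code (B := B ∘ sy s) fun c => h _, Function.comp, Function.comp, hv, (hu c).1] at b
  exact b.symm

end Pool.Agent.MP_3c4208_co.T3
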