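import Pool.Agent.MP_3c4208_co.T3.Red
import Pool.Agent.MP_3c4208_co.T3.Neg

/-! Boards of side three: the classification. -/

namespace Pool.Agent.MP_3c4208_co.T3

theorem card_cnt (B : C → ℕ) (a : ℕ) : (Finset.univ.filter fun c => B c = a).card = cnt B a := by
  have : (Finset.univ : Finset C).val = (L : Multiset C) := by decide
  rw [Finset.card_def, Finset.filter_val, this, Multiset.filter_coe, Multiset.coe_card, cnt,
    List.count_eq_countP, List.countP_map, List.countP_eq_length_filter]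
  rfl

theorem sum_le (l : List ℕ) : l.count 1 + l.count 2 + l.count 3 + l.count 4 ≤ l.length ∧
    (l.length ≤ l.count 1 + l.count 2 + l.count 3 + l.count 4 → ∀ x ∈ l, 1 ≤ x ∧ x ≤ 4) := by
  induction l with
  | nil => simp
  | cons x l ih =>
    simp only [List.count_cons, List.length_cons, beq_iff_eq, List.forall_mem_cons]
    refine ⟨?_, fun h => ⟨?_, ih.2 ?_⟩⟩ <;> split_ifs at * <;> omega

theorem few {B B' : C → ℕ} (h : 9 ≤ cnt B 1 + cnt B 2 + cnt B 3) (h1 : cnt B 2 ≤ cnt B 1)
    (h2 : cnt B 3 ≤ cnt B 2) (nb : cnt B 2 = 0 ∨ 1 ≤ cnt B 3 ∧ cnt B 1 ≠ 7)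
    (e : words B' = words B) : Sy B B' := by
  obtain ⟨a, b⟩ := sum_le (L.map B)
  have a' : cnt B 1 + cnt B 2 + cnt B 3 + cnt B 4 ≤ 9 := a
  refine rel (fun i => i + 1) (fun i j h => Fin.ext (Nat.succ_injective h)) (fun c => ?_) h1 h2
    (show cnt B 4 ≤ cnt B 3 by omega) (nb.imp_right (And.imp_right .inl)) e
  have := b (h.trans (Nat.le_add_right _ _)) _
    (List.mem_map_of_mem ((by decide : ∀ c : C, c ∈ L) c))
  exact ⟨⟨B c - 1, by omega⟩, show B c - 1 + 1 = B c by omega⟩

theorem pos {lam : List ℕ} (h : IsPartition 9 lam)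
    (nb : lam ∉ [[8, 1], [7, 2], [7, 1, 1], [6, 3], [5, 4]]) {B B' : C → ℕ} (hB : HasType B lam)
    (e : words B' = words B) : Sy B B' := by
  obtain ⟨h1, h2, h3⟩ := h
  simp only [HasType, card_cnt] at hB
  obtain _ | ⟨a, _ | ⟨b, _ | ⟨c, _ | ⟨d, r⟩⟩⟩⟩ := lam
  · simp at h3
  · have u : cnt B 1 = a := hB 0
    have v : cnt B 1 + cnt B 2 + cnt B 3 + cnt B 4 ≤ 9 := (sum_le (L.map B)).1
    have : a = 9 := by simpa using h3
    exact few (by omega) (by omega) (by omega) (by omega) e
  · simp only [List.pairwise_cons, List.mem_cons, List.not_mem_nil, or_false, forall_eq,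
      forall_eq_or_imp, List.sum_cons, List.sum_nil, List.cons.injEq, and_true, reduceCtorEq,
      and_false, false_or] at h1 h2 h3 nb
    omega
  · have u : cnt B 1 = a := hB 0
    have v : cnt B 2 = b := hB 1
    have w : cnt B 3 = c := hB 2
    simp only [List.pairwise_cons, List.mem_cons, List.not_mem_nil, or_false, forall_eq,
      forall_eq_or_imp, List.sum_cons, List.sum_nil, List.cons.injEq, and_true, reduceCtorEq,
      and_false, false_or] at h1 h2 h3 nb
    exact few (by omega) (by omega) (by omega) (by omega) e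
  · have s : ({1, 2, 3, 4} : Finset ℕ) ⊆ Finset.univ.image B := by
      have k : ∀ i : Fin (a :: b :: c :: d :: r).length, (i : ℕ) + 1 ∈ Finset.univ.image B := by
        intro i
        have := h2 _ (List.get_mem _ i)
        rw [← hB i] at this
        obtain ⟨c, -, hc⟩ := List.mem_map.1 (List.count_pos_iff.1 this)
        exact Finset.mem_image.2 ⟨c, Finset.mem_univ c, hc⟩
      simp only [Finset.insert_subset_iff, Finset.singleton_subset_iff]
      exact ⟨k ⟨0, by simp⟩, k ⟨1, by simp⟩, k ⟨2, by simp⟩, k ⟨3, by simp⟩⟩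
    obtain ⟨n, hn⟩ := Nat.exists_eq_add_of_le' (show 4 ≤ _ from Finset.card_le_card s)
    exact many n hn e

theorem neg {X Y : ℕ} {t : T} (h : eqv X Y t = true ∧ eqv Y X t = true) {lam : List ℕ}
    (hX : HasType (fun c : C => dg X (idx c) + 1) lam)
    (hY : HasType (fun c : C => dg Y (idx c) + 1) lam)
    (hn : ∀ s : S, ∃ c, dg Y (idx c) ≠ dg X (idx (sy s c))) :
    ¬ ∀ B : C → ℕ, HasType B lam → Solvable lam B := by
  intro k
  obtain ⟨r, s, u, e⟩ := k _ hX _ hY
    (words_map (· + 1) (Set.Subset.antisymm (sub_of h.2) (sub_of h.1)))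
  obtain ⟨c, hc⟩ := hn (r, s, u)
  exact hc (Nat.succ_injective (congrFun e c))

instance (B : C → ℕ) (lam : List ℕ) : Decidable (HasType B lam) := by
  unfold HasType; infer_instance

theorem main (lam : List ℕ) (h : IsPartition 9 lam) :
    (∀ B : Fin 3 × Fin 3 → ℕ, HasType B lam → Solvable lam B) ↔
      lam ∉ [[8, 1], [7, 2], [7, 1, 1], [6, 3], [5, 4]] := by
  refine ⟨fun k m => ?_, fun nb B hB B' _ e => ?_⟩
  · simp only [List.mem_cons, List.not_mem_nil, or_false] at m
    obtain rfl | rfl | rfl | rfl | rfl := m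
    exacts [neg e81 (by decide) (by decide) (by decide) k, neg e72 (by decide) (by decide) (by decide) k,
      neg e711 (by decide) (by decide) (by decide) k, neg e63 (by decide) (by decide) (by decide) k,
      neg e54 (by decide) (by decide) (by decide) k]
  · obtain ⟨s, hs⟩ := pos h nb hB e
    exact ⟨_, _, _, hs⟩

end Pool.Agent.MP_3c4208_co.T3
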