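import Pool.Agent.MP_3c4208_co.T3.Alg

/-! Decision trees that separate the boards of one type. -/

namespace Pool.Agent.MP_3c4208_co.T3

theorem c3222 : chk 3 2 2 2
  (.n 31 (.n 26 (.n 21 (.n 123 (.n 115 (.n 93 (.n 25 (.n 98 (.n 16 (.n 113 (.n 121 (.n 110 (.n 353 (.l 9948) (.l
  14232)) (.l 11853)) (.l 22731)) (.n 65 (.n 102 (.l 8829) (.l 9759)) (.l 15045))) (.n 89 (.n 97 (.l 23244) (.l
  24456)) (.n 81 (.l 23307) (.l 23496)))) (.n 102 (.n 66 (.n 82 (.l 14214) (.l 4986)) (.n 16 (.l 8010) (.l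
  18408))) (.n 18 (.n 16 (.l 8040) (.l 18318)) (.l 2010)))) (.n 119 (.n 98 (.n 16 (.l 10140) (.l 24330)) (.l
  7020)) (.n 110 (.n 1058 (.l 14226) (.l 10131)) (.l 9375)))) (.n 23 (.n 16 (.n 102 (.n 110 (.n 263 (.n 113 (.l
  7758) (.l 4734)) (.l 14022)) (.n 103 (.n 276 (.l 14052) (.l 15060)) (.l 17643))) (.n 25 (.n 91 (.l 24114) (.l
  23736)) (.l 23610))) (.n 98 (.n 110 (.n 81 (.l 24078) (.l 24204)) (.l 18147)) (.n 110 (.l 18156) (.l 28236))))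
  (.n 110 (.n 81 (.n 16 (.n 1075 (.l 9939) (.l 14034)) (.l 23055)) (.l 14040)) (.n 89 (.n 1041 (.l 11889) (.l
  7794)) (.l 7290))))) (.n 119 (.n 102 (.n 99 (.n 71 (.n 75 (.n 467 (.n 76 (.l 7608) (.l 6603)) (.n 16 (.l
  11892) (.l 18108))) (.l 2523)) (.n 17 (.l 1767) (.l 2775))) (.n 18 (.n 67 (.n 93 (.l 4587) (.l 7482)) (.n 16
  (.l 9615) (.l 18891))) (.l 1515))) (.n 89 (.n 64 (.n 110 (.l 4719) (.l 11829)) (.n 83 (.l 9927) (.l 6735)))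
  (.n 22 (.n 16 (.n 262 (.n 97 (.l 6987) (.l 4971)) (.l 10119)) (.l 18360)) (.l 1950)))) (.n 77 (.n 16 (.n 93
  (.n 89 (.l 1947) (.l 7032)) (.n 316 (.l 7788) (.l 6780))) (.n 72 (.n 316 (.l 18126) (.l 18063)) (.l 18315)))
  (.n 29 (.n 28 (.l 1758) (.l 1695)) (.n 98 (.l 7800) (.l 1755)))))) (.n 94 (.n 110 (.n 102 (.n 114 (.n 70 (.n
  78 (.n 402 (.n 72 (.l 6636) (.l 7566)) (.n 82 (.l 15204) (.l 15141))) (.l 2541)) (.n 17 (.l 1974) (.l 3045)))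
  (.n 19 (.n 66 (.n 89 (.l 4542) (.l 6447)) (.n 16 (.l 13770) (.l 18924))) (.l 1470))) (.n 25 (.n 97 (.n 16 (.n
  118 (.n 262 (.n 89 (.l 15177) (.l 23331)) (.n 276 (.l 10164) (.l 12180))) (.l 17598)) (.n 115 (.l 18354) (.l
  31560))) (.n 65 (.n 119 (.l 9141) (.l 14106)) (.l 12165))) (.n 93 (.n 1041 (.l 15201) (.l 7011)) (.l 6255))))
  (.n 16 (.n 89 (.n 93 (.n 267 (.n 114 (.l 11661) (.l 8637)) (.l 14793)) (.n 91 (.n 296 (.l 14808) (.l 13800))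
  (.l 35031))) (.n 118 (.n 93 (.n 316 (.l 11676) (.l 9660)) (.l 44337)) (.n 22 (.l 25788) (.l 44085)))) (.n 115
  (.n 93 (.n 98 (.n 81 (.l 44301) (.l 35292)) (.l 28044)) (.n 81 (.l 35283) (.l 40332))) (.n 316 (.l 35277) (.l
  31176))))) (.n 93 (.n 119 (.n 89 (.n 115 (.n 98 (.l 18915) (.l 14820)) (.n 81 (.l 11700) (.l 2535))) (.n 1075
  (.l 6627) (.l 14817))) (.n 30 (.n 110 (.l 22764) (.l 44109)) (.n 102 (.l 14565) (.l 22755)))) (.n 30 (.n 110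
  (.n 89 (.n 29 (.l 23694) (.l 13530)) (.l 22575)) (.l 44145)) (.n 119 (.n 102 (.n 1058 (.l 7602) (.l 11697))
  (.l 11445)) (.l 23730)))))) (.n 119 (.n 102 (.n 123 (.n 98 (.n 93 (.n 275 (.n 16 (.n 81 (.n 1614 (.l 9852) (.l
  9807)) (.l 11868)) (.n 316 (.l 19149) (.l 19143))) (.n 17 (.n 19 (.n 449 (.l 4839) (.l 6855)) (.l 1725)) (.l
  2781))) (.n 81 (.n 67 (.l 7734) (.l 5820)) (.n 116 (.l 7860) (.l 7836)))) (.n 24 (.n 115 (.n 89 (.n 16 (.l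
  3033) (.l 19416)) (.n 81 (.l 6120) (.l 7128))) (.n 28 (.n 280 (.l 1773) (.l 1977)) (.l 1647))) (.n 81 (.l
  1899) (.l 2025)))) (.n 30 (.n 110 (.n 66 (.n 89 (.n 274 (.l 15192) (.n 385 (.l 5046) (.l 8070))) (.n 81 (.l
  6951) (.l 7140))) (.n 16 (.n 1867 (.l 14184) (.l 14154)) (.l 19428))) (.n 103 (.n 414 (.l 30936) (.l 27804))
  (.l 40092))) (.n 89 (.n 93 (.n 4403 (.l 18663) (.l 27828)) (.l 7350)) (.l 6375)))) (.n 81 (.n 118 (.n 110 (.n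
  123 (.n 98 (.n 16 (.n 76 (.n 361 (.l 6072) (.l 5946)) (.l 5694)) (.l 35793)) (.n 66 (.l 6030) (.l 6090))) (.n
  80 (.n 475 (.n 438 (.l 31521) (.l 18669)) (.n 262 (.l 6066) (.l 10161))) (.n 361 (.l 31497) (.l 12177)))) (.n
  27 (.n 489 (.n 361 (.l 30921) (.l 35037)) (.n 68 (.l 9405) (.l 11421))) (.l 30945))) (.n 25 (.n 76 (.l 7326)
  (.l 5310)) (.n 123 (.n 98 (.l 44817) (.l 6957)) (.n 110 (.l 6381) (.l 44061))))) (.n 89 (.n 110 (.n 68 (.n 93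
  (.l 9933) (.l 7710)) (.n 449 (.l 4845) (.l 6861))) (.n 321 (.l 9789) (.l 11805))) (.n 70 (.n 98 (.n 361 (.n 16
  (.l 8088) (.l 19401)) (.n 16 (.l 8082) (.l 19425))) (.l 5022)) (.n 25 (.n 68 (.n 64 (.l 7962) (.l 10125)) (.n
  265 (.l 5097) (.l 7113))) (.l 7137)))))) (.n 102 (.n 81 (.n 103 (.n 123 (.n 110 (.n 115 (.n 16 (.n 72 (.n 381
  (.l 5868) (.l 5679)) (.l 5931)) (.l 40461)) (.n 67 (.l 5835) (.l 5775))) (.n 80 (.n 414 (.n 455 (.l 18651) (.l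
  28209)) (.n 263 (.l 5859) (.l 14049))) (.n 381 (.l 28173) (.l 15057)))) (.n 27 (.n 445 (.n 381 (.l 27789) (.l
  40077)) (.n 68 (.l 13545) (.l 14553))) (.l 27825))) (.n 29 (.n 72 (.l 6363) (.l 5355)) (.n 123 (.n 115 (.n 110
  (.l 40497) (.l 7353)) (.l 7737)) (.l 40113)))) (.n 93 (.n 123 (.n 68 (.n 89 (.l 14217) (.l 6939)) (.n 385 (.l
  5049) (.l 8073))) (.n 321 (.l 14121) (.l 15129))) (.n 71 (.n 115 (.n 381 (.n 16 (.l 6876) (.l 19164)) (.n 16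
  (.l 6867) (.l 19155))) (.l 4767)) (.n 29 (.n 68 (.n 64 (.l 6687) (.l 14025)) (.n 269 (.l 4797) (.l 7821))) (.l
  7857))))) (.n 123 (.n 89 (.n 110 (.n 29 (.n 451 (.n 81 (.n 98 (.l 56865) (.l 7725)) (.l 4830)) (.n 381 (.l
  5838) (.l 6717))) (.l 70191)) (.n 64 (.n 1341 (.l 74301) (.l 70371)) (.l 56850))) (.n 121 (.n 386 (.n 81 (.n
  115 (.l 39729) (.l 6969)) (.l 5019)) (.n 361 (.l 6027) (.l 7977))) (.n 25 (.l 38973) (.n 93 (.l 70443) (.l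
  69867))))) (.n 109 (.n 93 (.n 64 (.n 1321 (.l 74673) (.l 70578)) (.l 39699)) (.n 381 (.n 489 (.l 39132) (.l
  56346)) (.n 361 (.l 38943) (.l 73917)))) (.n 30 (.n 29 (.l 56361) (.l 69822)) (.n 5319 (.l 76977) (.l
  71907)))))))) (.n 21 (.n 123 (.n 102 (.n 119 (.n 72 (.n 67 (.n 20 (.n 110 (.n 89 (.n 93 (.n 292 (.l 2526) (.l
  1959)) (.l 7596)) (.n 291 (.l 6606) (.l 6462))) (.n 93 (.n 75 (.l 10557) (.l 11565)) (.l 11577))) (.n 98 (.l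
  2967) (.l 3030))) (.n 28 (.n 16 (.n 99 (.n 1421 (.l 6588) (.l 6543)) (.l 10620)) (.n 316 (.n 115 (.l 27468)
  (.l 18894)) (.l 18831))) (.n 98 (.l 2463) (.l 1455)))) (.n 120 (.n 89 (.n 110 (.n 386 (.l 4527) (.l 9675)) (.l
  11640)) (.n 450 (.n 329 (.l 7470) (.l 4590)) (.l 9678))) (.n 110 (.n 115 (.l 2022) (.l 1518)) (.l 11628))))
  (.n 29 (.n 65 (.n 93 (.n 289 (.l 14244) (.n 322 (.l 9081) (.l 12105))) (.l 26748)) (.n 16 (.n 1927 (.l 15252)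
  (.l 15237)) (.l 23436))) (.n 110 (.n 4659 (.l 22671) (.l 22716)) (.l 11385)))) (.n 98 (.n 93 (.n 121 (.n 81
  (.n 96 (.n 115 (.n 1289 (.n 64 (.l 22734) (.l 23346)) (.n 265 (.l 11121) (.l 7026))) (.n 406 (.l 11124) (.l
  11061))) (.n 16 (.l 8034) (.n 406 (.l 18339) (.l 18402)))) (.n 89 (.n 65 (.l 10011) (.l 11220)) (.n 65 (.l
  11085) (.l 11205)))) (.n 22 (.n 76 (.l 11373) (.l 10365)) (.n 81 (.n 119 (.l 24354) (.l 9438)) (.l 10014))))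
  (.n 103 (.n 110 (.n 72 (.n 89 (.l 23724) (.n 406 (.l 17583) (.l 6270))) (.n 470 (.l 17646) (.l 7278))) (.l
  27756)) (.n 22 (.n 89 (.l 9435) (.l 22590)) (.l 23598)))) (.n 73 (.n 81 (.n 72 (.n 406 (.l 18348) (.l 23310))
  (.n 406 (.l 12132) (.l 12129))) (.n 89 (.l 10200) (.l 9069))) (.n 22 (.n 72 (.n 64 (.l 12069) (.l 6990)) (.n
  89 (.l 10212) (.n 262 (.l 4974) (.l 10182)))) (.l 10194))))) (.n 102 (.n 98 (.n 30 (.n 119 (.n 115 (.n 96 (.n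
  89 (.n 81 (.n 1803 (.n 64 (.l 26703) (.l 40242)) (.n 267 (.l 10707) (.l 14802))) (.n 446 (.l 10716) (.l
  10527))) (.n 64 (.l 74046) (.l 56610))) (.n 16 (.l 13794) (.n 446 (.l 40206) (.l 27918)))) (.n 318 (.n 446 (.l
  10701) (.l 11550)) (.n 67 (.n 89 (.l 10695) (.l 9534)) (.l 10575)))) (.n 23 (.n 382 (.n 446 (.l 40014) (.l
  27726)) (.n 72 (.l 14550) (.l 13542))) (.l 40050))) (.n 93 (.n 115 (.n 64 (.l 77106) (.l 27954)) (.l 11574))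
  (.n 119 (.l 11382) (.l 27762)))) (.n 75 (.n 110 (.n 119 (.n 72 (.l 15174) (.n 322 (.l 9078) (.l 12102))) (.n
  386 (.l 15126) (.l 14118))) (.n 115 (.n 16 (.n 446 (.n 386 (.l 60705) (.l 9708)) (.n 89 (.l 9699) (.l 74031)))
  (.n 446 (.l 27084) (.l 26895))) (.n 446 (.l 8685) (.l 8559)))) (.n 30 (.n 72 (.n 64 (.l 9519) (.l 14790)) (.n
  270 (.l 8574) (.l 11598))) (.l 11634)))) (.n 121 (.n 119 (.n 98 (.n 115 (.n 89 (.l 11031) (.n 68 (.l 26418)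
  (.l 12054))) (.n 406 (.l 11079) (.l 10038))) (.n 73 (.l 9063) (.l 10023))) (.n 110 (.n 64 (.n 98 (.l 79650)
  (.l 75555)) (.l 26403)) (.n 446 (.n 470 (.l 25836) (.l 60453)) (.n 406 (.l 25647) (.l 74799))))) (.n 119 (.n
  22 (.n 118 (.n 68 (.l 9447) (.l 10455)) (.l 25662)) (.n 110 (.l 75570) (.l 74814))) (.n 29 (.n 30 (.l 56418)
  (.l 93234)) (.n 4235 (.l 79074) (.l 74979))))))) (.n 123 (.n 119 (.n 102 (.n 89 (.n 72 (.n 16 (.n 98 (.n 1153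
  (.l 7047) (.l 7092)) (.l 8100)) (.n 115 (.n 455 (.l 19398) (.l 19341)) (.l 19335))) (.n 68 (.n 81 (.n 1090 (.l
  10059) (.l 10104)) (.l 12120)) (.l 5031))) (.n 81 (.n 16 (.n 258 (.n 386 (.l 6966) (.l 7974)) (.l 10062)) (.l
  27405)) (.n 72 (.l 7110) (.l 5094)))) (.n 98 (.n 70 (.n 89 (.n 16 (.n 257 (.n 321 (.l 10041) (.l 12057)) (.l
  7053)) (.l 19410)) (.n 81 (.n 390 (.n 72 (.l 28425) (.l 6114)) (.l 11217)) (.n 1609 (.n 68 (.l 11100) (.l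
  7068)) (.n 321 (.l 40722) (.l 7122))))) (.n 25 (.n 17 (.l 11037) (.l 2973)) (.l 70626))) (.n 73 (.n 81 (.n
  1414 (.n 72 (.l 6060) (.l 10092)) (.n 386 (.l 28449) (.l 10209))) (.n 89 (.n 68 (.l 10185) (.l 5037)) (.n 70
  (.l 1965) (.l 6942)))) (.n 22 (.n 18 (.n 72 (.l 10029) (.l 5934)) (.l 1902)) (.l 74541))))) (.n 93 (.n 81 (.n
  390 (.n 68 (.n 98 (.n 4327 (.l 14241) (.l 6051)) (.l 27441)) (.n 16 (.l 15249) (.l 40713))) (.n 25 (.n 98 (.l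
  70563) (.l 40737)) (.l 70446))) (.n 89 (.n 16 (.n 1158 (.l 7089) (.l 8097)) (.l 19347)) (.n 257 (.l 74553) (.l
  7059)))) (.n 103 (.n 89 (.n 1223 (.n 381 (.l 18654) (.l 7341)) (.n 102 (.l 18591) (.l 6333))) (.n 110 (.n 381
  (.n 72 (.l 6366) (.l 5358)) (.n 284 (.l 5295) (.l 6303))) (.n 121 (.l 27705) (.l 27693)))) (.n 29 (.n 22 (.n
  365 (.n 102 (.l 26685) (.l 75837)) (.l 39981)) (.n 110 (.l 69870) (.l 76845))) (.n 1465 (.l 39993) (.l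
  69807)))))) (.n 119 (.n 110 (.n 98 (.n 329 (.n 72 (.n 81 (.n 4315 (.l 15186) (.l 11091)) (.l 31506)) (.n 16
  (.l 14178) (.l 28422))) (.n 22 (.n 1033 (.l 74550) (.l 28434)) (.l 77586))) (.n 102 (.n 16 (.n 1097 (.l 10098)
  (.l 12114)) (.l 27399)) (.n 72 (.l 74535) (.l 10083)))) (.n 91 (.n 102 (.n 76 (.n 446 (.l 26829) (.l 11358))
  (.n 89 (.l 26823) (.l 9342))) (.n 93 (.n 446 (.n 68 (.l 9453) (.l 10461)) (.n 300 (.l 10335) (.l 9327))) (.n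
  118 (.l 39990) (.l 39966)))) (.n 30 (.n 25 (.n 414 (.n 89 (.l 30930) (.l 73839)) (.l 27678)) (.n 446 (.l
  73965) (.l 76830))) (.n 1654 (.l 27702) (.l 76854))))) (.n 89 (.n 102 (.n 365 (.n 81 (.n 445 (.l 26844) (.l
  26655)) (.l 27411)) (.l 26835)) (.n 29 (.n 81 (.n 446 (.l 56481) (.l 75807)) (.l 76563)) (.l 75987))) (.n 30
  (.n 98 (.n 381 (.l 56358) (.l 73854)) (.l 74610)) (.l 76914))))))) (.n 26 (.n 21 (.n 110 (.n 119 (.n 89 (.n 76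
  (.n 65 (.n 114 (.n 123 (.n 93 (.n 102 (.n 308 (.l 2553) (.l 1782)) (.l 9972)) (.l 7563)) (.n 78 (.l 15657) (.l
  14649))) (.n 18 (.l 15720) (.n 115 (.l 3546) (.l 1530)))) (.n 17 (.n 16 (.n 1734 (.l 11988) (.l 11973)) (.n 72
  (.n 276 (.l 31308) (.l 24264)) (.l 18936))) (.n 115 (.l 3798) (.l 2805)))) (.n 19 (.n 93 (.n 108 (.n 451 (.l
  8949) (.l 14925)) (.l 14712)) (.n 387 (.l 4539) (.l 13707))) (.n 98 (.l 1719) (.l 1467)))) (.n 22 (.n 123 (.n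
  66 (.n 259 (.n 451 (.n 93 (.l 4602) (.l 7467)) (.l 6459)) (.n 306 (.l 6648) (.l 13710))) (.n 16 (.n 1481 (.l
  7656) (.l 7626)) (.l 19914))) (.n 102 (.n 115 (.l 14637) (.l 14700)) (.l 30828))) (.n 123 (.n 4898 (.l 23754)
  (.l 23784)) (.l 14445)))) (.n 115 (.n 89 (.n 109 (.n 81 (.n 112 (.n 98 (.n 1293 (.n 64 (.l 23691) (.l 24099))
  (.n 269 (.l 15969) (.l 7779))) (.n 471 (.l 15972) (.l 15909))) (.n 16 (.l 6771) (.n 471 (.l 18162) (.l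
  18099)))) (.n 93 (.n 65 (.l 13854) (.l 16020)) (.n 65 (.l 15945) (.l 16005)))) (.n 23 (.n 72 (.l 14457) (.l
  15465)) (.n 81 (.n 102 (.l 23091) (.l 13467)) (.l 13851)))) (.n 118 (.n 123 (.n 76 (.n 93 (.l 22776) (.n 471
  (.l 17658) (.l 7275))) (.n 407 (.l 17595) (.l 6267))) (.l 30840)) (.n 23 (.n 93 (.l 13470) (.l 23595)) (.l
  22587)))) (.n 77 (.n 81 (.n 76 (.n 471 (.l 18168) (.l 24075)) (.n 471 (.l 14964) (.l 14961))) (.n 93 (.l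
  13980) (.l 12921))) (.n 23 (.n 76 (.n 64 (.l 14901) (.l 7755)) (.n 93 (.l 14004) (.n 263 (.l 4731) (.l
  13959)))) (.l 13971))))) (.n 93 (.n 115 (.n 94 (.n 102 (.n 89 (.n 98 (.n 16 (.n 68 (.n 491 (.l 15768) (.l
  15642)) (.l 15894)) (.l 30987)) (.n 66 (.l 15750) (.l 15690))) (.n 112 (.n 1550 (.n 64 (.l 31818) (.l 44307))
  (.n 270 (.l 15762) (.l 11667))) (.n 491 (.l 35313) (.l 9651)))) (.n 22 (.n 363 (.n 491 (.l 35061) (.l 30795))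
  (.n 76 (.l 11415) (.l 9399))) (.l 44055))) (.n 27 (.n 68 (.l 13494) (.l 15510)) (.n 102 (.n 98 (.n 89 (.l
  31011) (.l 14439)) (.l 14631)) (.l 30819)))) (.n 123 (.n 76 (.n 119 (.n 305 (.l 11847) (.l 11799)) (.l 13878))
  (.n 323 (.n 398 (.l 9783) (.l 8823)) (.l 14919))) (.n 78 (.n 98 (.n 16 (.n 491 (.l 13752) (.l 13746)) (.n 491
  (.l 32136) (.l 32010))) (.l 12666)) (.n 27 (.n 76 (.n 64 (.l 13626) (.l 11655)) (.n 267 (.l 8631) (.l 14667)))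
  (.l 14691))))) (.n 109 (.n 115 (.n 102 (.n 119 (.n 64 (.n 299 (.n 89 (.l 14619) (.l 74163)) (.l 13611)) (.n
  491 (.l 15753) (.l 39219))) (.n 321 (.n 414 (.l 13863) (.l 26163)) (.n 471 (.l 15942) (.l 14871)))) (.n 471
  (.n 491 (.l 29880) (.l 29754)) (.n 123 (.l 75315) (.n 491 (.l 47157) (.l 78906))))) (.n 119 (.n 491 (.n 89 (.l
  12729) (.l 47409)) (.l 78138)) (.n 98 (.n 471 (.l 30258) (.l 79410)) (.l 12918)))) (.n 27 (.n 23 (.n 22 (.n 91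
  (.l 25779) (.l 39027)) (.n 4302 (.l 74931) (.l 79026))) (.n 123 (.l 79395) (.l 78891))) (.n 119 (.l 80163) (.l
  96291)))))) (.n 110 (.n 102 (.n 93 (.n 119 (.n 76 (.n 16 (.n 115 (.n 1217 (.l 7878) (.l 7908)) (.l 6900)) (.n
  98 (.n 1329 (.l 19188) (.l 20169)) (.l 20166))) (.n 68 (.n 81 (.n 1091 (.l 13902) (.l 13932)) (.l 14940)) (.l
  4854))) (.n 115 (.n 16 (.n 257 (.n 321 (.l 13869) (.l 14877)) (.l 7881)) (.l 19185)) (.n 68 (.l 13965) (.l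
  4857)))) (.n 81 (.n 76 (.n 23 (.n 16 (.n 98 (.n 455 (.l 5880) (.l 16017)) (.l 7719)) (.n 119 (.l 32265) (.l
  31245))) (.l 70323)) (.n 333 (.n 119 (.n 259 (.l 6711) (.l 13899)) (.n 269 (.n 451 (.l 31281) (.l 13944)) (.l
  14001))) (.n 19 (.n 115 (.l 5811) (.l 5691)) (.l 1659)))) (.n 71 (.n 115 (.n 1869 (.n 68 (.l 15960) (.l 7896))
  (.n 321 (.l 40467) (.l 7827))) (.n 119 (.n 76 (.l 7815) (.l 4791)) (.n 77 (.l 1785) (.l 13881)))) (.n 17 (.n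
  29 (.n 68 (.l 7707) (.l 15897)) (.l 78393)) (.l 3801))))) (.n 89 (.n 81 (.n 455 (.n 68 (.n 115 (.n 4278 (.l
  9969) (.l 5874)) (.l 32289)) (.n 16 (.l 11985) (.l 36561))) (.n 29 (.n 115 (.l 70386) (.l 48657)) (.l 70203)))
  (.n 93 (.n 16 (.n 1223 (.l 7905) (.l 6897)) (.l 20178)) (.n 257 (.l 74481) (.l 7890)))) (.n 118 (.n 93 (.n
  1158 (.n 361 (.l 18681) (.l 6393)) (.n 119 (.l 19674) (.l 7401))) (.n 123 (.n 361 (.n 76 (.l 7323) (.l 5307))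
  (.n 280 (.l 5370) (.l 7386))) (.n 109 (.l 30765) (.l 30777)))) (.n 25 (.n 23 (.n 377 (.n 119 (.l 31785) (.l
  79917)) (.l 48273)) (.n 123 (.l 69819) (.l 79929))) (.n 1517 (.l 44241) (.l 69882)))))) (.n 102 (.n 109 (.n
  123 (.n 115 (.n 76 (.n 333 (.n 81 (.n 4254 (.l 11859) (.l 15954)) (.l 28179)) (.n 64 (.l 74355) (.l 31251)))
  (.n 16 (.l 9843) (.l 31239))) (.n 119 (.n 16 (.n 1101 (.l 13923) (.l 14931)) (.l 28167)) (.n 76 (.l 78390) (.l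
  13938)))) (.n 119 (.n 72 (.n 414 (.l 31881) (.l 14427)) (.n 93 (.l 27783) (.l 13419))) (.n 89 (.n 491 (.n 68
  (.l 13497) (.l 15513)) (.n 312 (.l 15450) (.l 13434))) (.n 103 (.l 44115) (.l 40083))))) (.n 27 (.n 29 (.n 475
  (.n 93 (.l 27795) (.l 77946)) (.l 30747)) (.n 81 (.n 491 (.l 78009) (.l 79899)) (.l 80403))) (.n 1895 (.l
  30759) (.l 79911)))) (.n 93 (.n 119 (.n 377 (.n 81 (.n 489 (.l 31896) (.l 31770)) (.l 32274)) (.l 31890)) (.n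
  25 (.n 81 (.n 491 (.l 39153) (.l 80922)) (.l 77331)) (.l 76947))) (.n 27 (.n 115 (.n 361 (.l 38967) (.l
  73911)) (.l 74295)) (.l 79971)))))) (.n 21 (.n 93 (.n 89 (.n 123 (.n 110 (.n 76 (.n 16 (.n 115 (.n 1218 (.l
  11721) (.l 11736)) (.l 9720)) (.n 1202 (.n 333 (.l 36297) (.l 31116)) (.l 28104))) (.n 72 (.n 98 (.n 1155 (.l
  14733) (.l 14748)) (.l 13740)) (.l 8697))) (.n 98 (.n 16 (.n 259 (.n 451 (.l 11547) (.l 9531)) (.l 14727)) (.l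
  27915)) (.n 76 (.l 11595) (.l 8571)))) (.n 115 (.n 75 (.n 110 (.n 16 (.n 258 (.n 386 (.l 14622) (.l 13614))
  (.l 11718)) (.l 30990)) (.n 98 (.n 398 (.n 459 (.l 18930) (.l 15714)) (.l 10611)) (.n 1934 (.n 72 (.l 15780)
  (.l 11748)) (.n 386 (.l 27939) (.l 11619))))) (.n 30 (.n 18 (.l 15654) (.l 3558)) (.l 139635))) (.n 78 (.n 98
  (.n 1739 (.n 76 (.l 10740) (.l 14772)) (.n 451 (.l 31026) (.l 14706))) (.n 110 (.n 72 (.l 14670) (.l 8694))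
  (.n 75 (.l 2550) (.l 11559)))) (.n 27 (.n 19 (.n 76 (.l 14646) (.l 10551)) (.l 2487)) (.l 143670))))) (.n 91
  (.n 102 (.n 98 (.n 72 (.n 459 (.n 115 (.n 4217 (.l 6642) (.l 10737)) (.l 48402)) (.n 64 (.l 81186) (.l
  32034))) (.n 16 (.l 7650) (.l 19938))) (.n 110 (.n 16 (.n 1227 (.l 11730) (.l 9714)) (.l 36306)) (.n 386 (.l
  77091) (.l 11745)))) (.n 110 (.n 1094 (.n 406 (.l 30798) (.l 9462)) (.n 1750 (.l 36054) (.l 11478))) (.n 119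
  (.n 406 (.n 76 (.l 11367) (.l 10359)) (.n 292 (.l 10485) (.l 11493))) (.n 94 (.l 22770) (.l 30834))))) (.n 30
  (.n 22 (.n 438 (.n 123 (.l 48150) (.l 93219)) (.l 31842)) (.n 1758 (.l 23778) (.l 97314))) (.n 119 (.n 115 (.l
  139383) (.l 139575)) (.l 144438))))) (.n 102 (.n 119 (.n 115 (.n 398 (.n 76 (.n 110 (.n 64 (.l 74226) (.l
  40227)) (.n 4205 (.l 7587) (.l 15777))) (.n 16 (.l 6579) (.l 18867))) (.n 30 (.n 64 (.l 76083) (.l 26931)) (.l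
  144675))) (.n 123 (.n 110 (.n 16 (.l 48417) (.l 40203)) (.n 89 (.n 1166 (.l 14739) (.l 13731)) (.l 74043)))
  (.n 451 (.l 80178) (.l 14769)))) (.n 109 (.n 123 (.n 1095 (.n 471 (.l 27723) (.l 13479)) (.n 110 (.l 40011)
  (.l 14487))) (.n 471 (.n 72 (.l 14454) (.l 15462)) (.n 308 (.l 15525) (.l 14517)))) (.n 23 (.n 30 (.l 26739)
  (.l 144423)) (.n 1947 (.l 22707) (.l 92211))))) (.n 110 (.n 109 (.n 123 (.n 487 (.n 471 (.l 25848) (.l 48225))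
  (.l 48165)) (.n 471 (.l 25842) (.l 78894))) (.n 25 (.l 40035) (.l 74994))) (.n 91 (.n 123 (.n 406 (.l 25659)
  (.l 74811)) (.n 94 (.l 23715) (.l 96306))) (.n 23 (.n 30 (.l 27747) (.l 143478)) (.l 79011)))))) (.n 110 (.n
  93 (.n 123 (.n 119 (.n 7030 (.l 27864) (.l 27849)) (.n 438 (.n 257 (.n 68 (.l 13485) (.l 14493)) (.l 40137))
  (.l 40161))) (.n 22 (.n 377 (.n 258 (.n 72 (.l 14430) (.l 13422)) (.l 27846)) (.l 27858)) (.l 77010))) (.n 89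
  (.n 123 (.n 102 (.n 7783 (.l 30876) (.l 30861)) (.n 487 (.n 257 (.n 68 (.l 9465) (.l 11481)) (.l 36057)) (.l
  48153))) (.n 1895 (.l 30750) (.l 79902))) (.n 123 (.n 1462 (.n 68 (.l 39963) (.l 40152)) (.n 365 (.l 40146)
  (.l 73977))) (.n 1465 (.l 39975) (.l 73974))))) (.n 102 (.n 119 (.n 89 (.n 76 (.n 93 (.n 6583 (.l 26868) (.l
  18678)) (.n 414 (.l 7335) (.l 26679))) (.n 1645 (.l 18615) (.l 6327))) (.n 30 (.n 475 (.n 258 (.n 72 (.l 6390)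
  (.l 7398)) (.l 19686)) (.l 31782)) (.l 144483))) (.n 123 (.n 89 (.n 365 (.n 259 (.n 76 (.l 11355) (.l 9339))
  (.l 30855)) (.l 30867)) (.n 365 (.l 48210) (.l 73851))) (.n 89 (.n 76 (.n 475 (.n 1901 (.l 30774) (.l 30897))
  (.l 79926)) (.l 30900)) (.n 475 (.l 26865) (.l 80934))))) (.n 103 (.n 94 (.n 119 (.n 93 (.n 72 (.n 414 (.n
  1657 (.l 27687) (.l 27873)) (.l 76839)) (.l 27876)) (.n 414 (.l 31905) (.l 75831))) (.n 91 (.n 1654 (.l 27675)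
  (.l 76827)) (.n 4233 (.l 80994) (.l 76899)))) (.n 27 (.n 4301 (.l 75891) (.l 79986)) (.n 1075 (.l 140403) (.l
  144498)))) (.n 29 (.n 22 (.n 4295 (.l 76017) (.l 71922)) (.n 1058 (.l 72930) (.l 77025))) (.n 121 (.n 1075 (.l
  71859) (.l 80049)) (.l 80019))))))))) = true := by
  decide +kernel

theorem c9000 : chk 9 0 0 0
  (.l 0) = true := by
  decide +kernel

theorem c6210 : chk 6 2 1 0
  (.n 21 (.n 22 (.n 89 (.n 72 (.n 1553 (.n 321 (.n 4161 (.n 16386 (.l 265) (.l 328)) (.l 580)) (.l 517)) (.l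
  73)) (.n 1298 (.l 262) (.l 70))) (.n 329 (.n 256 (.n 4360 (.n 16392 (.n 17426 (.n 66569 (.n 65609 (.l 400) (.l
  1156)) (.l 274)) (.l 148)) (.n 20552 (.l 352) (.l 100))) (.l 22)) (.l 1408)) (.l 4384))) (.n 17540 (.n 65604
  (.n 266258 (.l 9220) (.l 4192)) (.l 1168)) (.l 97))) (.n 22 (.n 89 (.n 81 (.n 256 (.n 6161 (.n 4356 (.n 1056
  (.n 67601 (.l 592) (.l 88)) (.l 1096)) (.l 529)) (.l 25)) (.l 1600)) (.l 4624)) (.n 4625 (.n 17426 (.n 16392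
  (.n 263201 (.n 262214 (.l 1153) (.n 262418 (.l 5128) (.l 4120))) (.l 4132)) (.l 1090)) (.l 145)) (.l 82))) (.n
  67652 (.n 263186 (.n 266258 (.l 5122) (.l 4129)) (.l 6145)) (.l 4114)))) = true := by
  decide +kernel

theorem c6111 : chk 6 1 1 1
  (.n 27 (.n 29 (.n 22 (.n 76 (.n 72 (.n 68 (.n 17089 (.n 4162 (.l 396) (.l 840)) (.l 588)) (.n 449 (.n 1825 (.l
  777) (.l 141)) (.l 525))) (.n 450 (.n 1810 (.l 774) (.l 78)) (.l 270))) (.n 387 (.n 1555 (.l 519) (.l 75)) (.l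
  267))) (.n 97 (.n 7201 (.n 256 (.n 4612 (.n 7186 (.n 4289 (.n 16388 (.l 864) (.l 912)) (.l 1164)) (.l 156))
  (.l 786)) (.l 1920)) (.n 17185 (.l 30) (.l 108))) (.l 4896))) (.n 25 (.n 113 (.n 6193 (.n 256 (.n 4868 (.n
  6163 (.n 4225 (.n 16388 (.l 624) (.l 720)) (.l 1224)) (.l 216)) (.l 531)) (.l 1728)) (.n 16945 (.l 27) (.l
  120))) (.l 4656)) (.n 6193 (.n 4364 (.n 7201 (.n 4360 (.n 16578 (.n 16392 (.l 6156) (.l 1218)) (.l 1155)) (.l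
  210)) (.l 4140)) (.l 147)) (.l 4152)))) (.n 23 (.n 22 (.n 114 (.n 5170 (.n 256 (.n 4872 (.n 5155 (.n 4162 (.n
  16392 (.l 432) (.l 480)) (.l 2244)) (.l 228)) (.l 291)) (.l 2496)) (.n 16690 (.l 39) (.l 180))) (.l 8496)) (.n
  5170 (.n 4620 (.n 7186 (.n 4612 (.n 16577 (.n 16388 (.l 9228) (.l 2241)) (.l 1200)) (.l 225)) (.l 4320)) (.l
  99)) (.l 8244))) (.n 22 (.n 5155 (.n 4872 (.n 6163 (.n 19474 (.n 16513 (.n 16388 (.l 13320) (.l 2256)) (.l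
  1248)) (.l 177)) (.l 4272)) (.l 114)) (.l 8304)) (.n 68680 (.n 66700 (.n 67780 (.n 263218 (.n 262450 (.l 9219)
  (.l 7170)) (.l 6147)) (.l 4146)) (.l 8241)) (.l 4131))))) = true := by
  decide +kernel

theorem c5310 : chk 5 3 1 0
  (.n 86 (.n 89 (.n 72 (.n 85 (.n 1026 (.n 81 (.n 1313 (.n 321 (.n 1056 (.n 6165 (.n 4161 (.n 16402 (.n 66585
  (.l 4376) (.l 401)) (.l 1157)) (.l 596)) (.l 281)) (.n 4377 (.n 65622 (.l 344) (.l 5384)) (.l 404))) (.l 533))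
  (.n 4370 (.l 329) (.l 149))) (.l 581)) (.n 66 (.n 16485 (.n 69952 (.n 280128 (.l 17480) (.l 1412)) (.l 1604))
  (.l 1409)) (.l 1352))) (.n 357 (.n 256 (.n 1297 (.n 4229 (.n 65814 (.n 4098 (.n 65812 (.l 4184) (.l 4628)) (.l
  5192)) (.n 4160 (.l 5252) (.l 5636))) (.l 1097)) (.n 18501 (.l 593) (.l 89))) (.l 1601)) (.l 5144))) (.n 18
  (.n 258 (.n 85 (.n 4098 (.n 5186 (.n 20754 (.n 83010 (.l 4388) (.l 338)) (.l 278)) (.l 86)) (.n 66840 (.l 356)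
  (.l 1094))) (.l 5156)) (.l 1346)) (.l 326))) (.n 342 (.n 1032 (.n 5190 (.n 256 (.n 5193 (.n 5142 (.n 65814 (.l
  4196) (.l 6212)) (.l 4448)) (.l 353)) (.l 1424)) (.n 65606 (.l 101) (.l 1172))) (.n 4169 (.l 9284) (.l 9476)))
  (.n 85 (.n 1302 (.n 4098 (.n 65814 (.l 4385) (.l 6401)) (.l 5378)) (.l 4370)) (.n 4104 (.n 4360 (.n 263190 (.l
  4133) (.l 6149)) (.l 4118)) (.n 17672 (.l 5126) (.l 5186)))))) (.n 22 (.n 21 (.n 4104 (.n 1056 (.n 65605 (.l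
  1169) (.l 5264)) (.l 1106)) (.l 5216)) (.n 89 (.n 16401 (.n 66577 (.n 82184 (.n 82952 (.l 5129) (.l 5249)) (.l
  4121)) (.l 4625)) (.l 5633)) (.n 278916 (.l 5153) (.l 6161)))) (.n 85 (.n 1297 (.n 65605 (.n 69906 (.l 9221)
  (.l 4193)) (.l 6209)) (.l 9236)) (.n 21 (.n 327813 (.l 5138) (.l 9233)) (.l 69650))))) = true := by
  decide +kernel

theorem c5220 : chk 5 2 2 0
  (.n 26 (.n 21 (.n 102 (.n 89 (.n 98 (.n 386 (.n 81 (.n 321 (.n 4390 (.l 612) (.l 408)) (.n 1041 (.n 256 (.l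
  534) (.l 1668)) (.l 660))) (.l 585)) (.n 1058 (.n 256 (.l 282) (.l 1416)) (.l 360))) (.n 81 (.l 330) (.n 1121
  (.l 582) (.l 393)))) (.n 256 (.n 386 (.n 1314 (.n 4194 (.l 6408) (.l 1158)) (.l 150)) (.n 5257 (.l 4392) (.l
  402))) (.l 1410))) (.n 89 (.n 256 (.n 321 (.n 1553 (.n 4241 (.l 9732) (.l 1176)) (.l 105)) (.n 69766 (.l 609)
  (.l 4704))) (.l 1680)) (.n 22 (.n 406 (.l 17544) (.n 5254 (.n 16457 (.l 9348) (.l 6216)) (.l 4200))) (.n 69922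
  (.l 6240) (.l 1170))))) (.n 102 (.n 81 (.n 89 (.n 256 (.n 1284 (.n 1058 (.n 1154 (.n 4113 (.n 16913 (.n 5218
  (.l 4644) (.l 594)) (.l 1161)) (.l 5640)) (.l 90)) (.l 1098)) (.n 4625 (.l 657) (.l 153))) (.n 386 (.n 1281
  (.l 1602) (.l 1665)) (.l 1608))) (.n 1122 (.l 5160) (.l 6168))) (.n 68 (.n 4100 (.l 600) (.l 4632)) (.l 537)))
  (.n 89 (.n 81 (.n 5254 (.n 4113 (.l 5634) (.l 6657)) (.l 4641)) (.l 4626)) (.n 25 (.n 361 (.n 24646 (.l 5256)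
  (.l 4248)) (.n 66694 (.n 16518 (.n 65670 (.l 4122) (.l 5130)) (.l 5250)) (.n 5254 (.l 6153) (.l 4137)))) (.l
  6177))))) (.n 21 (.n 89 (.n 98 (.n 102 (.n 256 (.n 1544 (.n 1041 (.n 17698 (.n 4130 (.n 4390 (.l 1188) (.l
  4512)) (.l 9480)) (.n 4625 (.l 417) (.l 165))) (.l 2181)) (.n 4386 (.l 354) (.l 102))) (.n 321 (.n 1538 (.l
  2433) (.l 1440)) (.l 2436))) (.n 1169 (.l 9240) (.l 9252))) (.n 72 (.n 4104 (.l 420) (.l 8484)) (.l 294))) (.n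
  102 (.n 98 (.n 6217 (.n 4130 (.l 6402) (.l 9474)) (.l 4386)) (.l 8481)) (.n 22 (.n 406 (.n 20617 (.l 10308)
  (.l 8292)) (.n 67657 (.n 16457 (.n 65609 (.l 8229) (.l 10245)) (.l 6210)) (.n 6217 (.l 9222) (.l 4194)))) (.l
  9234)))) (.n 102 (.n 89 (.n 1058 (.n 4130 (.n 4113 (.l 4260) (.l 6276)) (.l 9288)) (.l 18564)) (.n 4130 (.n
  65634 (.l 4134) (.l 6150)) (.l 9282))) (.n 25 (.n 89 (.n 4113 (.n 65681 (.l 4257) (.l 9225)) (.l 6273)) (.n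
  1417 (.n 1160 (.n 1092 (.n 4130 (.n 4113 (.n 264289 (.l 1185) (.l 5280)) (.l 6288)) (.l 9312)) (.l 2193)) (.l
  1122)) (.n 66697 (.n 66694 (.n 67657 (.l 6162) (.l 5154)) (.l 10257)) (.l 9249)))) (.n 20770 (.l 69666) (.l
  73761)))))) = true := by
  decide +kernel

theorem c5211 : chk 5 2 1 1
  (.n 27 (.n 21 (.n 23 (.n 22 (.n 89 (.n 99 (.n 76 (.n 81 (.n 66 (.n 263 (.n 6167 (.l 724) (.l 472)) (.l 1732))
  (.l 1480)) (.n 97 (.l 589) (.l 841))) (.n 387 (.n 323 (.l 628) (.l 535)) (.n 1059 (.l 283) (.l 376)))) (.n 19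
  (.n 18 (.l 397) (.n 81 (.l 334) (.l 838))) (.n 81 (.l 331) (.l 583)))) (.n 470 (.n 72 (.n 118 (.n 67 (.n 262
  (.n 321 (.l 412) (.l 916)) (.l 1924)) (.l 1420)) (.l 17548)) (.n 450 (.n 322 (.l 868) (.l 790)) (.n 1074 (.l
  286) (.l 364)))) (.n 306 (.n 450 (.n 1330 (.n 72 (.l 6412) (.l 1222)) (.l 214)) (.n 258 (.n 1874 (.l 466) (.l
  4396)) (.l 1474))) (.n 387 (.n 1315 (.l 1159) (.l 151)) (.n 259 (.n 1619 (.l 403) (.l 4408)) (.l 1411))))))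
  (.n 93 (.n 1026 (.n 1073 (.n 1810 (.n 1298 (.l 4960) (.l 865)) (.l 109)) (.l 1180)) (.n 1281 (.l 9988) (.l
  1936))) (.n 5255 (.n 1032 (.l 6220) (.l 9412)) (.l 4204)))) (.n 22 (.n 89 (.n 1027 (.n 1057 (.n 1555 (.n 1299
  (.l 4720) (.l 625)) (.l 121)) (.l 1240)) (.n 1281 (.l 13828) (.l 1744))) (.n 5318 (.n 1036 (.l 7240) (.l
  13444)) (.l 4216))) (.n 1056 (.n 17676 (.n 4104 (.l 6256) (.l 7264)) (.l 1171)) (.l 1234)))) (.n 103 (.n 89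
  (.n 93 (.n 68 (.n 66 (.n 67 (.n 5249 (.l 604) (.l 856)) (.l 1612)) (.l 1864)) (.n 385 (.l 541) (.l 793))) (.n
  76 (.n 81 (.n 1809 (.n 1031 (.n 1138 (.l 5644) (.l 1225)) (.l 1729)) (.n 1588 (.l 721) (.l 217))) (.l 4636))
  (.n 259 (.n 333 (.n 1059 (.n 1091 (.l 91) (.l 595)) (.l 1099)) (.l 4660)) (.l 1603)))) (.n 93 (.n 72 (.n 81
  (.n 1553 (.n 1030 (.n 1123 (.l 5896) (.l 1165)) (.l 1921)) (.n 1828 (.l 913) (.l 157))) (.l 4888)) (.n 258 (.n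
  329 (.n 1074 (.n 1090 (.l 94) (.l 850)) (.l 1102)) (.l 4900)) (.l 1858))) (.n 76 (.n 1159 (.l 6172) (.l 5164))
  (.l 5176)))) (.n 23 (.n 22 (.n 4231 (.n 4294 (.l 4252) (.l 5260)) (.l 5320)) (.n 93 (.n 81 (.n 1313 (.n 4113
  (.l 5890) (.l 6913)) (.l 4897)) (.l 4882)) (.n 5255 (.n 16519 (.n 4296 (.n 18503 (.l 6157) (.l 4126)) (.l
  5134)) (.l 5314)) (.l 4141)))) (.n 25 (.n 89 (.n 81 (.n 1329 (.n 4113 (.l 5635) (.l 7681)) (.l 4657)) (.l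
  4627)) (.n 5318 (.n 16582 (.n 4236 (.n 19526 (.l 7177) (.l 4123)) (.l 5131)) (.l 5251)) (.l 4153))) (.n 66067
  (.l 6193) (.l 7201)))))) (.n 21 (.n 103 (.n 93 (.n 99 (.n 76 (.n 1074 (.n 353 (.n 1041 (.n 4118 (.n 1330 (.l
  481) (.l 229)) (.l 2497)) (.l 2245)) (.l 4576)) (.n 89 (.l 2500) (.l 9484))) (.n 259 (.n 4195 (.n 4387 (.l
  355) (.l 103)) (.l 1204)) (.l 1456))) (.n 89 (.n 387 (.n 72 (.l 436) (.l 484)) (.l 295)) (.l 8500))) (.n 89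
  (.n 291 (.n 6167 (.n 1059 (.n 1041 (.l 181) (.l 2260)) (.l 13576)) (.n 333 (.n 4119 (.l 433) (.l 2512)) (.l
  4528))) (.n 114 (.n 258 (.n 4210 (.n 4402 (.l 370) (.l 118)) (.l 1252)) (.l 1504)) (.l 8560))) (.n 114 (.n
  6221 (.n 4131 (.n 16457 (.l 6403) (.l 7426)) (.l 9475)) (.n 1559 (.l 4402) (.l 4387))) (.l 8497)))) (.n 23 (.n
  22 (.n 4173 (.n 5330 (.l 11332) (.l 8308)) (.l 14404)) (.n 93 (.n 76 (.l 9244) (.l 9268)) (.n 17543 (.n 6221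
  (.n 16461 (.l 9223) (.l 6211)) (.l 4195)) (.n 5170 (.l 11269) (.l 8245))))) (.n 22 (.n 89 (.n 72 (.l 13336)
  (.l 13348)) (.n 17606 (.n 7241 (.n 16457 (.l 13318) (.l 7234)) (.l 4210)) (.n 5155 (.l 14341) (.l 8305)))) (.n
  70163 (.l 9235) (.l 13330))))) (.n 23 (.n 22 (.n 103 (.n 93 (.n 89 (.l 18628) (.n 1074 (.n 16454 (.l 4324) (.l
  6340)) (.l 9292))) (.n 89 (.n 1059 (.n 16455 (.l 4276) (.l 7300)) (.l 13384)) (.n 17458 (.n 4131 (.n 20515 (.l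
  4150) (.l 7174)) (.l 9283)) (.n 20530 (.l 4135) (.l 6151))))) (.n 4108 (.n 4290 (.n 5127 (.n 16454 (.n 16519
  (.l 1249) (.l 5344)) (.l 6352)) (.l 2257)) (.n 1155 (.l 1201) (.l 1123))) (.n 4131 (.l 5296) (.l 9328)))) (.n
  93 (.n 4113 (.n 29201 (.l 9229) (.l 4321)) (.l 6337)) (.n 17458 (.n 66695 (.n 67655 (.l 5170) (.l 7186)) (.l
  11281)) (.l 9265)))) (.n 22 (.n 89 (.n 4113 (.n 25361 (.l 13321) (.l 4273)) (.l 7297)) (.n 17443 (.n 66758 (.n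
  68678 (.l 5155) (.l 6163)) (.l 14353)) (.l 13345))) (.n 20786 (.l 69667) (.l 73777)))))) = true := by
  decide +kernel

end Pool.Agent.MP_3c4208_co.T3
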