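import Pool.Agent.MP_3c4208_co.T3.Alg

/-! Decision trees that separate the boards of one type. -/

namespace Pool.Agent.MP_3c4208_co.T3

theorem c3321 : chk 3 3 2 1
  (.n 26 (.n 27 (.n 87 (.n 99 (.n 93 (.n 110 (.n 102 (.n 67 (.n 89 (.n 72 (.n 76 (.n 64 (.l 1945) (.l 7000)) (.n
  339 (.l 5830) (.l 4702))) (.n 66 (.n 338 (.l 6022) (.l 4954)) (.n 338 (.l 5992) (.l 5962)))) (.n 70 (.n 85 (.l
  7012) (.l 6949)) (.l 1942))) (.n 83 (.n 16 (.n 339 (.n 1187 (.l 6748) (.l 5740)) (.l 5710)) (.n 76 (.n 296 (.l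
  18313) (.l 18250)) (.n 98 (.l 18061) (.l 17998)))) (.n 16 (.l 5788) (.l 18076)))) (.n 85 (.n 89 (.n 76 (.n 16
  (.n 265 (.n 82 (.l 10117) (.l 4969)) (.l 6985)) (.l 18328)) (.n 67 (.n 83 (.l 9925) (.l 4717)) (.l 6733))) (.n
  22 (.n 16 (.n 103 (.l 10132) (.l 17566)) (.n 81 (.l 18322) (.l 23368))) (.n 76 (.l 7009) (.l 6253)))) (.n 86
  (.n 89 (.n 76 (.n 64 (.l 5914) (.l 6040)) (.l 5662)) (.n 16 (.l 23329) (.l 23305))) (.n 118 (.n 262 (.l 6034)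
  (.l 10129)) (.l 5278))))) (.n 67 (.n 102 (.n 85 (.n 267 (.n 71 (.n 263 (.n 103 (.l 44305) (.l 21736)) (.l
  11860)) (.n 20 (.l 1765) (.l 2773))) (.n 75 (.n 98 (.n 76 (.l 7576) (.l 6601)) (.n 299 (.l 6616) (.l 5608)))
  (.l 2521))) (.n 339 (.n 72 (.n 347 (.n 279 (.l 5860) (.l 6868)) (.l 22744)) (.l 17641)) (.n 64 (.n 275 (.l
  7702) (.l 4837)) (.n 76 (.l 7828) (.l 6853))))) (.n 91 (.n 89 (.n 83 (.n 76 (.n 363 (.l 23704) (.l 24082)) (.l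
  9757)) (.l 11797)) (.n 363 (.l 22729) (.n 76 (.l 23578) (.l 9373)))) (.n 22 (.l 35029) (.l 44053)))) (.n 76
  (.n 98 (.n 85 (.n 89 (.n 434 (.l 35281) (.l 23944)) (.l 23818)) (.n 81 (.n 398 (.l 18145) (.l 24070)) (.l
  19156))) (.n 72 (.l 18148) (.n 296 (.l 18904) (.l 17896)))) (.n 16 (.n 89 (.n 1387 (.l 9805) (.l 9820)) (.l
  9628)) (.n 339 (.l 22984) (.l 19141)))))) (.n 343 (.n 387 (.n 359 (.n 263 (.n 327 (.n 299 (.n 323 (.l 22066)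
  (.l 14932)) (.n 1303 (.l 13894) (.l 13924))) (.n 323 (.n 363 (.n 299 (.l 8821) (.l 4726)) (.l 9751)) (.l
  14917))) (.n 110 (.n 71 (.n 327 (.l 7780) (.l 9940)) (.l 1750)) (.n 299 (.l 11845) (.l 7750)))) (.n 103 (.n
  363 (.n 1431 (.l 21688) (.l 22603)) (.n 259 (.l 9367) (.l 21562))) (.n 110 (.n 89 (.l 17626) (.l 22636)) (.l
  23626)))) (.n 67 (.n 98 (.n 359 (.n 407 (.l 13720) (.l 17515)) (.l 13714)) (.n 66 (.n 259 (.l 4474) (.l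
  13702)) (.l 7498))) (.n 76 (.n 81 (.n 102 (.l 18136) (.l 18130)) (.l 23116)) (.n 414 (.n 16 (.l 9619) (.l
  22795)) (.l 18019))))) (.n 259 (.n 407 (.n 291 (.n 279 (.n 363 (.n 347 (.n 110 (.l 7717) (.l 5671)) (.l
  23689)) (.n 1443 (.l 70243) (.l 74293))) (.n 327 (.l 6679) (.l 4789))) (.n 299 (.n 333 (.l 6427) (.l 4537))
  (.l 5419))) (.n 103 (.n 363 (.n 359 (.n 387 (.l 6235) (.l 5227)) (.l 69931)) (.l 69739)) (.l 23593))) (.n 323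
  (.n 398 (.n 102 (.n 76 (.n 85 (.l 7561) (.l 7813)) (.l 17593)) (.n 110 (.l 24097) (.l 38965))) (.n 1347 (.n
  387 (.n 85 (.l 39217) (.l 26161)) (.l 13705)) (.n 279 (.l 13921) (.l 13897)))) (.n 16 (.n 67 (.l 14929) (.n
  1303 (.l 5731) (.l 6739))) (.n 76 (.l 24073) (.l 18097))))))) (.n 19 (.n 110 (.n 66 (.n 67 (.n 93 (.n 72 (.l
  6445) (.l 4510)) (.l 7465)) (.n 72 (.l 6508) (.l 5518))) (.n 18 (.n 67 (.n 93 (.l 5578) (.l 7528)) (.l 17806))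
  (.n 93 (.l 1882) (.l 1498)))) (.n 67 (.n 18 (.n 76 (.l 7450) (.l 4585)) (.l 1513)) (.n 16 (.l 9613) (.l
  18889)))) (.n 110 (.n 343 (.n 16 (.n 263 (.n 89 (.n 64 (.l 1435) (.l 6520)) (.l 1438)) (.n 71 (.l 6772) (.l
  1687))) (.n 98 (.l 17995) (.l 17803))) (.n 98 (.n 1095 (.n 263 (.n 64 (.l 6709) (.l 5707)) (.l 5767)) (.n 93
  (.l 1693) (.l 4699))) (.n 64 (.n 85 (.n 1303 (.l 6457) (.l 4507)) (.l 1630)) (.l 5515)))) (.n 267 (.n 64 (.n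
  290 (.n 363 (.n 85 (.n 1131 (.l 4711) (.l 1717)) (.l 5686)) (.l 9781)) (.n 299 (.n 5483 (.l 4459) (.l 5434))
  (.l 1639))) (.n 1095 (.n 72 (.n 414 (.l 9799) (.l 9844)) (.l 9607)) (.n 85 (.l 6727) (.l 5812)))) (.n 75 (.n
  16 (.n 5451 (.l 6475) (.l 5560)) (.n 1351 (.l 17848) (.l 18100))) (.n 24 (.l 1465) (.l 1387))))))) (.n 23 (.n
  21 (.n 110 (.n 19 (.n 71 (.n 103 (.n 263 (.n 102 (.l 5848) (.l 5842)) (.n 16 (.l 9937) (.l 23053))) (.n 89 (.l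
  5338) (.l 22573))) (.n 98 (.l 7768) (.l 1753))) (.n 98 (.l 5752) (.l 1627))) (.n 67 (.n 76 (.n 103 (.n 406 (.n
  1566 (.l 7762) (.l 11857)) (.l 7258)) (.l 44113)) (.n 291 (.n 1091 (.l 13906) (.l 13912)) (.l 5242))) (.n 414
  (.n 16 (.l 9811) (.l 23047)) (.n 398 (.l 5746) (.l 9841))))) (.n 93 (.n 110 (.n 76 (.n 89 (.n 386 (.n 81 (.l
  6937) (.l 5017)) (.n 64 (.l 5929) (.l 6025))) (.n 361 (.l 39697) (.l 70426))) (.n 259 (.n 81 (.n 1283 (.l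
  5677) (.l 6685)) (.l 4765)) (.n 67 (.l 5833) (.l 5773)))) (.n 89 (.n 64 (.n 102 (.n 1163 (.n 414 (.l 18649)
  (.l 6361)) (.l 5353)) (.l 70369)) (.n 323 (.n 1067 (.l 28177) (.l 5857)) (.n 16 (.l 6865) (.l 19153)))) (.n
  363 (.l 38941) (.l 69865)))) (.n 110 (.n 19 (.n 71 (.n 103 (.n 1031 (.l 70174) (.l 40465)) (.l 69790)) (.l
  7705)) (.l 5689)) (.n 76 (.n 103 (.n 263 (.l 7321) (.l 7825)) (.l 40081)) (.n 259 (.n 398 (.l 5305) (.l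
  70183)) (.n 67 (.l 31249) (.l 5809))))))) (.n 110 (.n 85 (.n 102 (.n 275 (.n 67 (.n 1299 (.l 13957) (.l
  13972)) (.l 18067)) (.n 83 (.l 7753) (.l 4729))) (.n 89 (.n 76 (.n 64 (.l 7273) (.l 7777)) (.n 67 (.n 259 (.l
  6265) (.l 17563)) (.l 6769))) (.l 22648))) (.n 21 (.n 339 (.n 67 (.n 89 (.n 259 (.l 5275) (.l 13969)) (.l
  22585)) (.l 5779)) (.n 259 (.l 5659) (.l 23089))) (.n 102 (.l 70171) (.l 69787)))) (.n 347 (.n 85 (.n 89 (.n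
  102 (.n 1323 (.n 64 (.l 13846) (.l 22051)) (.n 299 (.l 14869) (.l 13861))) (.l 75283)) (.n 4139 (.l 13462) (.l
  21547))) (.n 89 (.n 64 (.n 81 (.n 398 (.l 70258) (.l 74353)) (.l 13849)) (.l 23059)) (.l 69754))) (.n 91 (.n
  21 (.n 4635 (.l 22555) (.l 13465)) (.n 1043 (.l 69817) (.l 70321))) (.n 22 (.l 39025) (.l 74899))))))) (.n 93
  (.n 99 (.n 76 (.n 85 (.n 98 (.n 361 (.n 264 (.n 268 (.n 1058 (.l 7570) (.l 11665)) (.l 11668)) (.n 16 (.l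
  11653) (.l 18913))) (.n 102 (.l 6625) (.l 11413))) (.n 81 (.n 72 (.l 6628) (.l 7558)) (.l 2533))) (.n 102 (.n
  21 (.n 358 (.n 290 (.n 373 (.n 1382 (.l 22756) (.l 18661)) (.l 7318)) (.l 23686)) (.l 6373)) (.l 27793)) (.n
  21 (.n 89 (.l 23698) (.l 22753)) (.l 71905)))) (.n 67 (.n 89 (.n 85 (.n 98 (.n 102 (.n 386 (.n 1639 (.l 25780)
  (.l 17590)) (.l 14665)) (.n 259 (.l 9397) (.l 30793))) (.n 1187 (.l 14680) (.l 14692))) (.n 259 (.l 5302) (.l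
  30808))) (.n 102 (.n 259 (.l 6247) (.l 14689)) (.l 30817))) (.n 16 (.n 89 (.n 1571 (.l 9649) (.l 5554)) (.l
  6499)) (.n 1571 (.l 30985) (.l 17842))))) (.n 19 (.n 387 (.n 98 (.n 259 (.l 8629) (.l 31009)) (.n 1155 (.l
  6439) (.l 4534))) (.n 16 (.n 5586 (.l 13672) (.l 13642)) (.l 18916))) (.n 16 (.n 98 (.l 9652) (.l 1462)) (.l
  31048)))) (.n 103 (.n 87 (.n 85 (.n 98 (.n 64 (.n 72 (.n 1571 (.l 74161) (.l 70066)) (.l 13594)) (.n 343 (.l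
  22819) (.l 39187))) (.n 343 (.l 14629) (.n 386 (.l 14617) (.l 13609)))) (.n 1431 (.n 72 (.l 14425) (.l 13417))
  (.n 1447 (.l 38935) (.l 73909)))) (.n 21 (.n 290 (.n 1639 (.l 30757) (.l 22567)) (.l 13402)) (.n 1639 (.l
  30745) (.l 69814)))) (.n 23 (.n 343 (.n 102 (.l 14437) (.n 89 (.l 21682) (.l 22627))) (.n 407 (.l 25777) (.n
  4294 (.l 74929) (.l 70834)))) (.n 21 (.n 102 (.l 78889) (.l 78874)) (.l 79897)))))) (.n 27 (.n 93 (.n 110 (.n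
  89 (.n 21 (.n 76 (.n 102 (.n 72 (.n 16 (.n 20 (.n 81 (.n 276 (.n 85 (.l 6982) (.l 6052)) (.l 6934)) (.n 98 (.n
  1428 (.l 7045) (.l 7060)) (.l 1957))) (.l 2965)) (.n 1170 (.n 81 (.l 23302) (.l 19333)) (.l 18340))) (.n 274
  (.n 280 (.n 406 (.l 10057) (.l 10072)) (.n 258 (.l 5926) (.l 10054))) (.n 18 (.n 85 (.l 4966) (.l 5029)) (.l
  1894)))) (.n 98 (.n 16 (.n 85 (.n 64 (.l 11029) (.l 11092)) (.n 64 (.l 10009) (.l 23314))) (.l 18337)) (.n 72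
  (.l 10021) (.l 10084)))) (.n 19 (.n 67 (.n 387 (.n 102 (.n 1155 (.l 6430) (.l 4525)) (.l 17581)) (.n 259 (.n
  329 (.l 5422) (.l 4462)) (.n 312 (.l 9673) (.l 9670)))) (.n 16 (.n 98 (.n 4643 (.l 6556) (.l 6541)) (.n 1363
  (.l 6478) (.l 5548))) (.n 1363 (.l 17836) (.l 18829)))) (.n 18 (.n 98 (.l 2461) (.l 1453)) (.l 1390)))) (.n 76
  (.n 98 (.n 16 (.n 1414 (.n 68 (.l 6049) (.l 7057)) (.l 70561)) (.l 19345)) (.l 27409)) (.n 259 (.n 1571 (.l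
  6301) (.l 5293)) (.l 18589)))) (.n 98 (.n 470 (.n 85 (.n 16 (.n 321 (.n 64 (.l 10006) (.l 22306)) (.l 11077))
  (.l 18274)) (.n 329 (.n 72 (.n 1046 (.l 6994) (.l 11089)) (.l 5986)) (.l 70498))) (.n 22 (.n 259 (.n 291 (.l
  6238) (.l 5230)) (.l 17518)) (.l 75538))) (.n 101 (.n 81 (.n 386 (.n 406 (.l 26401) (.l 74533)) (.l 10081))
  (.l 9061)) (.n 21 (.l 10066) (.l 70438))))) (.n 99 (.n 347 (.n 395 (.n 64 (.n 89 (.n 343 (.n 72 (.n 76 (.n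
  1383 (.l 11545) (.l 26701)) (.l 10525)) (.n 411 (.l 17638) (.l 25708))) (.n 1431 (.n 1163 (.l 18646) (.l
  26716)) (.n 1163 (.l 6358) (.l 5350)))) (.n 102 (.n 76 (.l 70114) (.l 9502)) (.n 1419 (.n 1627 (.l 25645) (.l
  27685)) (.l 74797)))) (.n 67 (.n 267 (.n 76 (.n 1435 (.n 1371 (.l 10708) (.l 10705)) (.n 358 (.l 40210) (.l
  23842))) (.l 10693)) (.n 1163 (.l 6610) (.l 5602))) (.n 398 (.n 72 (.l 18898) (.l 17890)) (.n 16 (.l 10573)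
  (.l 27913))))) (.n 75 (.n 267 (.n 386 (.n 76 (.n 291 (.l 74029) (.l 27937)) (.l 8557)) (.n 434 (.l 9697) (.l
  9700))) (.n 291 (.n 398 (.l 26893) (.l 26956)) (.l 11608))) (.n 64 (.n 81 (.n 1059 (.l 9517) (.l 11557)) (.l
  2518)) (.n 72 (.n 76 (.l 7588) (.l 6598)) (.l 11620))))) (.n 91 (.n 21 (.n 102 (.n 89 (.n 76 (.l 23716) (.l
  22726)) (.n 76 (.l 23590) (.l 9310))) (.n 373 (.n 300 (.l 10333) (.l 9325)) (.l 39958))) (.n 102 (.n 89 (.n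
  1435 (.l 26833) (.l 26653)) (.l 69862)) (.n 414 (.l 27673) (.l 75805)))) (.n 118 (.n 85 (.n 1163 (.l 10453)
  (.l 9445)) (.n 89 (.l 22738) (.l 73837))) (.n 22 (.l 21730) (.l 74782))))) (.n 19 (.n 67 (.n 18 (.n 76 (.l
  7462) (.l 4582)) (.l 1510)) (.n 72 (.n 75 (.l 10588) (.l 18886)) (.n 5531 (.l 9550) (.l 9580)))) (.n 395 (.n
  64 (.n 81 (.n 4235 (.l 9529) (.l 10549)) (.l 2455)) (.n 1163 (.n 6494 (.l 6580) (.l 6535)) (.l 10612))) (.n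
  267 (.n 1179 (.n 72 (.l 6454) (.l 4519)) (.l 1447)) (.n 16 (.n 5534 (.l 9547) (.l 9592)) (.l 18823))))))) (.n
  87 (.n 343 (.n 76 (.n 110 (.n 387 (.n 406 (.n 1431 (.l 21676) (.l 22606)) (.n 1033 (.l 9430) (.l 21550))) (.n
  16 (.n 89 (.l 9688) (.l 9682)) (.n 1303 (.l 22798) (.l 22924)))) (.n 91 (.n 98 (.n 89 (.n 66 (.n 72 (.l 27721)
  (.l 7270)) (.l 7522)) (.l 11365)) (.n 1431 (.l 11593) (.l 11617))) (.n 103 (.l 27745) (.l 23650)))) (.n 387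
  (.n 259 (.n 359 (.n 395 (.n 1431 (.l 9499) (.l 6262)) (.l 8569)) (.l 10357)) (.n 1438 (.n 300 (.n 333 (.l
  17575) (.l 14740)) (.l 14725)) (.n 414 (.l 22834) (.l 25720)))) (.n 398 (.n 16 (.l 6514) (.l 17827)) (.n 67
  (.l 13732) (.l 10609))))) (.n 387 (.n 102 (.n 259 (.n 365 (.n 1435 (.n 1347 (.l 5287) (.l 6295)) (.n 398 (.l
  70051) (.l 74041))) (.n 76 (.l 7333) (.l 6325))) (.n 85 (.n 76 (.n 110 (.l 40225) (.l 7585)) (.n 398 (.l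
  14737) (.l 26929))) (.n 407 (.l 18583) (.l 26677)))) (.n 89 (.n 91 (.n 407 (.l 25657) (.l 74809)) (.l 23713))
  (.n 1462 (.l 39973) (.l 69742)))) (.n 67 (.n 110 (.l 69934) (.l 13729)) (.n 16 (.n 365 (.n 1166 (.l 6547) (.l
  5539)) (.l 6577)) (.n 110 (.l 40201) (.l 18835)))))) (.n 23 (.n 103 (.n 110 (.n 21 (.n 1639 (.n 5735 (.l
  22684) (.l 22669)) (.n 1031 (.l 9433) (.l 22558))) (.n 1031 (.l 69805) (.l 39961))) (.n 21 (.n 414 (.n 1435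
  (.n 300 (.l 22708) (.l 22663)) (.n 259 (.l 9307) (.l 22582))) (.n 76 (.l 11353) (.l 9337))) (.n 259 (.l 69799)
  (.l 30865)))) (.n 21 (.n 91 (.l 40018) (.n 4235 (.l 70882) (.l 74977))) (.l 71890))) (.n 85 (.n 110 (.n 22 (.n
  102 (.l 40009) (.l 40033)) (.l 74962)) (.n 102 (.n 68 (.n 1433 (.l 13477) (.l 26737)) (.l 14485)) (.n 1419 (.n
  89 (.l 21667) (.l 22642)) (.l 74779)))) (.n 347 (.n 1435 (.n 6158 (.l 22675) (.l 22705)) (.l 73849)) (.n 21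
  (.n 4238 (.l 70819) (.l 75889)) (.l 71827))))))) (.n 93 (.n 291 (.n 89 (.n 259 (.n 98 (.n 76 (.n 85 (.n 1383
  (.l 11542) (.l 11350)) (.l 27730)) (.n 1571 (.n 1383 (.l 10519) (.l 10327)) (.n 102 (.l 9334) (.l 9319)))) (.n
  1539 (.l 74023) (.l 9511))) (.n 1155 (.n 98 (.n 85 (.n 1571 (.n 6275 (.l 14674) (.l 30994)) (.l 26695)) (.l
  30802)) (.l 14662)) (.n 67 (.n 76 (.l 27922) (.l 25906)) (.l 10579)))) (.n 102 (.n 21 (.n 76 (.l 77074) (.l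
  75058)) (.l 76882)) (.n 342 (.n 259 (.l 74806) (.l 25654)) (.n 373 (.n 1654 (.l 27670) (.l 76822)) (.l
  73831))))) (.n 99 (.n 67 (.n 98 (.l 27718) (.n 1586 (.l 11602) (.l 11590))) (.n 16 (.n 1383 (.l 9571) (.l
  9586)) (.l 26887))) (.n 19 (.n 98 (.n 67 (.n 259 (.l 74038) (.l 13666)) (.l 27910)) (.l 8566)) (.n 98 (.n 64
  (.l 9526) (.l 10567)) (.l 8551))))) (.n 359 (.n 343 (.n 98 (.n 102 (.n 72 (.n 1639 (.l 14422) (.l 79138)) (.l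
  13414)) (.n 1623 (.l 25639) (.l 74791))) (.n 386 (.n 64 (.n 1639 (.l 14614) (.l 75043)) (.l 25891)) (.l
  13606))) (.n 1431 (.n 1639 (.n 259 (.n 5735 (.l 26707) (.l 26647)) (.l 26899)) (.n 85 (.l 76051) (.l 75799)))
  (.n 87 (.n 98 (.l 73846) (.l 74098)) (.l 30742)))) (.n 23 (.n 103 (.n 21 (.n 1059 (.l 74851) (.l 78946)) (.l
  75859)) (.n 102 (.n 343 (.l 25714) (.l 74866)) (.l 91186))) (.n 102 (.n 85 (.l 78886) (.l 79894)) (.l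
  91171))))))) = true := by
  decide +kernel

theorem c4221 : chk 4 2 2 1
  (.n 26 (.n 21 (.n 27 (.n 23 (.n 102 (.n 99 (.n 76 (.n 93 (.n 83 (.n 98 (.n 67 (.n 259 (.n 89 (.l 2505) (.l
  4584)) (.l 6600)) (.n 16 (.l 9612) (.l 18888))) (.n 82 (.l 1926) (.l 918))) (.n 65 (.l 741) (.l 2757))) (.n 98
  (.n 89 (.n 68 (.n 67 (.n 365 (.l 11844) (.l 7560)) (.l 18060)) (.l 2772)) (.n 103 (.l 7434) (.l 17640))) (.n
  110 (.n 83 (.l 1734) (.l 726)) (.n 279 (.n 72 (.l 1764) (.l 1512)) (.l 2520))))) (.n 387 (.n 275 (.n 414 (.n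
  395 (.n 407 (.l 4536) (.l 6411)) (.l 441)) (.n 323 (.l 8820) (.l 14916))) (.n 279 (.l 630) (.l 693))) (.n 259
  (.n 299 (.n 333 (.l 4395) (.l 4410)) (.l 378)) (.n 407 (.l 13704) (.l 9603))))) (.n 19 (.n 93 (.n 110 (.n 67
  (.l 414) (.l 1422)) (.l 489)) (.n 66 (.n 89 (.l 474) (.l 6444)) (.l 1482))) (.n 110 (.n 407 (.n 98 (.n 263 (.l
  663) (.l 1671)) (.n 4247 (.l 411) (.l 1419))) (.l 6456)) (.n 267 (.n 72 (.n 4203 (.l 615) (.l 1716)) (.l 363))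
  (.l 1464))))) (.n 121 (.n 110 (.n 89 (.n 93 (.n 83 (.n 97 (.l 1944) (.l 873)) (.n 67 (.l 621) (.l 1692))) (.n
  67 (.n 263 (.l 4716) (.l 9924)) (.l 6732))) (.n 118 (.n 16 (.n 262 (.n 1558 (.l 6984) (.l 4968)) (.l 10116))
  (.l 18312)) (.l 17550))) (.n 89 (.n 83 (.n 323 (.n 76 (.l 11781) (.l 9735)) (.n 259 (.n 1443 (.l 4707) (.l
  8757)) (.l 6723))) (.n 19 (.l 9756) (.l 9780))) (.n 407 (.l 17592) (.n 4195 (.n 1555 (.l 6219) (.l 4203)) (.l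
  9351))))) (.n 110 (.n 93 (.n 76 (.n 64 (.l 1938) (.l 7008)) (.l 1182)) (.l 6252)) (.n 25 (.n 89 (.l 23688) (.l
  22728)) (.n 93 (.l 9372) (.l 23562)))))) (.n 110 (.n 259 (.n 83 (.n 89 (.n 81 (.n 76 (.n 72 (.l 1746) (.l
  1242)) (.l 1179)) (.l 1752)) (.n 76 (.l 7272) (.l 6264))) (.n 81 (.l 4728) (.l 633))) (.n 67 (.n 102 (.n 76
  (.l 7752) (.l 13956)) (.n 89 (.n 76 (.l 7776) (.l 6768)) (.l 17547))) (.l 1683))) (.n 102 (.n 89 (.n 81 (.n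
  1299 (.n 64 (.n 4371 (.l 13830) (.l 4722)) (.l 7746)) (.n 1043 (.l 8817) (.l 14853))) (.n 299 (.l 13848) (.l
  13860))) (.n 1058 (.n 1314 (.l 13446) (.l 4218)) (.l 7242))) (.n 25 (.n 91 (.n 1299 (.l 13842) (.l 9747)) (.n
  89 (.l 13464) (.l 22539))) (.n 4238 (.l 9363) (.l 13458)))))) (.n 93 (.n 76 (.n 89 (.n 98 (.l 11652) (.l
  2532)) (.n 102 (.n 68 (.n 259 (.l 2529) (.l 6624)) (.l 2277)) (.l 11412))) (.n 99 (.n 102 (.n 67 (.n 259 (.l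
  1206) (.n 89 (.l 14664) (.l 9648))) (.l 1458)) (.n 406 (.l 30792) (.l 9396))) (.n 98 (.l 8628) (.l 438)))) (.n
  103 (.n 102 (.n 98 (.n 407 (.n 1059 (.n 64 (.n 333 (.l 8625) (.l 4530)) (.l 7554)) (.n 1571 (.l 14601) (.l
  13578))) (.n 1571 (.l 14625) (.l 6435))) (.n 279 (.l 13608) (.l 14616))) (.n 1041 (.n 1553 (.l 14409) (.l
  8373)) (.l 11397))) (.n 23 (.n 22 (.n 102 (.l 14436) (.l 17586)) (.n 4173 (.l 6243) (.l 14433))) (.n 89 (.l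
  13338) (.n 102 (.l 14373) (.l 22563))))))) (.n 103 (.n 102 (.n 27 (.n 110 (.n 93 (.n 76 (.n 89 (.n 274 (.n 66
  (.l 1929) (.l 1866)) (.n 321 (.l 858) (.l 921))) (.n 70 (.l 5928) (.l 6936))) (.n 67 (.n 321 (.l 606) (.l
  669)) (.n 1187 (.l 1677) (.l 1614)))) (.n 19 (.n 71 (.n 259 (.n 327 (.l 5676) (.l 4764)) (.n 67 (.l 5832) (.l
  5772))) (.n 83 (.n 1639 (.l 1737) (.l 6684)) (.l 729))) (.n 327 (.n 1639 (.l 1611) (.l 5688)) (.l 603)))) (.n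
  76 (.n 81 (.n 1095 (.n 414 (.n 93 (.l 9804) (.l 7686)) (.n 263 (.n 72 (.l 5856) (.l 1257)) (.l 1761))) (.n 65
  (.n 414 (.l 18648) (.l 2265)) (.l 2769))) (.n 93 (.n 67 (.n 323 (.l 4836) (.l 6852)) (.l 19140)) (.n 68 (.l
  7812) (.l 6864)))) (.n 259 (.n 333 (.n 414 (.n 1283 (.l 4647) (.l 6663)) (.n 387 (.l 1209) (.l 1131))) (.n 327
  (.l 4662) (.l 4788))) (.n 67 (.n 323 (.n 414 (.n 4163 (.l 9795) (.l 13896)) (.l 9840)) (.l 5808)) (.n 1101 (.l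
  1635) (.l 1713)))))) (.n 89 (.n 1639 (.n 93 (.l 18660) (.n 1101 (.l 13416) (.l 14424))) (.n 1058 (.n 1826 (.l
  7302) (.l 4278)) (.l 13386))) (.n 93 (.l 6372) (.l 6183)))) (.n 93 (.n 110 (.n 81 (.n 1542 (.n 1161 (.n 361
  (.l 6024) (.l 6921)) (.l 5898)) (.n 1030 (.l 4905) (.l 6018))) (.n 361 (.l 5016) (.l 4890))) (.n 81 (.n 27 (.n
  363 (.l 18633) (.n 1553 (.n 4294 (.l 6345) (.l 9357)) (.l 4329))) (.l 18657)) (.n 257 (.n 275 (.l 9741) (.l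
  4833)) (.l 6849)))) (.n 363 (.n 110 (.n 327 (.n 1299 (.n 259 (.l 5646) (.l 5826)) (.n 1027 (.l 4653) (.l
  6669))) (.l 4638)) (.n 76 (.l 7320) (.l 5304))) (.n 27 (.n 89 (.n 76 (.n 327 (.l 11793) (.l 7698)) (.n 333 (.l
  9777) (.l 5682))) (.n 76 (.l 7194) (.l 5178))) (.n 361 (.l 30729) (.l 30753)))))) (.n 91 (.n 102 (.n 1435 (.n
  110 (.n 83 (.n 259 (.n 81 (.n 76 (.l 7689) (.l 5643)) (.l 4635)) (.l 5763)) (.l 4665)) (.n 81 (.n 1809 (.n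
  4235 (.l 7305) (.l 13449)) (.l 4281)) (.n 257 (.n 68 (.l 13833) (.l 4785)) (.l 7809)))) (.n 23 (.n 1095 (.l
  5352) (.l 6360)) (.n 89 (.n 81 (.n 398 (.n 1043 (.l 5667) (.l 14865)) (.l 13857)) (.l 6675)) (.n 1163 (.l
  6171) (.l 5163))))) (.n 23 (.n 1058 (.n 4294 (.l 4254) (.l 5262)) (.l 5322)) (.n 110 (.n 89 (.n 76 (.l 7713)
  (.l 6705)) (.n 361 (.n 1091 (.l 5259) (.l 4251)) (.n 76 (.l 7209) (.l 6201)))) (.n 398 (.l 70179) (.l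
  74289))))) (.n 23 (.n 27 (.n 110 (.n 93 (.l 6945) (.l 6189)) (.n 25 (.l 35025) (.l 44049))) (.n 25 (.n 4230
  (.n 5254 (.l 9393) (.l 11409)) (.n 17542 (.l 5298) (.l 7314))) (.l 6369))) (.n 27 (.n 25 (.l 38961) (.l
  69675)) (.n 89 (.n 1092 (.l 13353) (.l 14361)) (.n 361 (.l 38931) (.n 7302 (.l 69810) (.l 73905))))))))) (.n
  21 (.n 91 (.n 89 (.n 23 (.n 76 (.n 93 (.n 110 (.n 102 (.n 289 (.n 65 (.l 1956) (.l 2949)) (.n 386 (.l 933) (.l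
  870))) (.n 73 (.l 10008) (.l 10020))) (.n 75 (.n 259 (.n 395 (.l 10524) (.l 8556)) (.n 67 (.l 10692) (.l
  10572))) (.n 99 (.n 1435 (.l 2502) (.l 9516)) (.l 486)))) (.n 98 (.n 72 (.n 365 (.n 67 (.n 1639 (.l 26700) (.l
  11529)) (.l 6540)) (.n 267 (.n 68 (.l 7584) (.l 2262)) (.l 2514))) (.n 66 (.l 1254) (.l 1506))) (.n 110 (.n 67
  (.n 387 (.l 4524) (.l 9672)) (.l 18828)) (.n 72 (.l 11592) (.l 9696))))) (.n 67 (.n 259 (.n 98 (.n 365 (.n 398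
  (.n 1539 (.l 4515) (.l 9483)) (.l 8505)) (.n 1095 (.l 1191) (.l 2199))) (.n 110 (.n 386 (.l 429) (.l 366)) (.l
  8568))) (.n 387 (.n 365 (.n 4227 (.l 6531) (.l 14724)) (.l 6576)) (.l 10608))) (.n 19 (.n 110 (.n 98 (.l 2445)
  (.l 1452)) (.n 1166 (.l 2451) (.l 1443))) (.n 395 (.n 1435 (.l 2439) (.l 9528)) (.l 423))))) (.n 102 (.n 1435
  (.n 110 (.l 22668) (.n 1166 (.l 14484) (.l 13476))) (.n 1041 (.n 1809 (.l 11337) (.l 8313)) (.l 14469))) (.n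
  110 (.l 9432) (.l 9243)))) (.n 110 (.n 93 (.n 98 (.n 64 (.n 1558 (.n 1094 (.l 9990) (.l 11013)) (.l 4962)) (.n
  406 (.l 11076) (.l 6978))) (.n 406 (.l 9060) (.l 8997))) (.n 98 (.n 23 (.n 407 (.l 17580) (.n 1314 (.n 4297
  (.l 9414) (.l 6222)) (.l 4206))) (.l 22542)) (.n 258 (.n 291 (.l 6414) (.l 4398)) (.l 9666)))) (.n 102 (.n 93
  (.n 98 (.n 259 (.n 1080 (.n 1027 (.l 4578) (.l 10509)) (.l 9486)) (.l 6594)) (.l 8493)) (.n 76 (.n 395 (.l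
  7458) (.l 11553)) (.n 398 (.l 6450) (.l 10545)))) (.n 23 (.n 407 (.n 76 (.l 11364) (.l 10356)) (.n 76 (.l
  11301) (.l 10293))) (.n 406 (.l 17571) (.l 22578)))))) (.n 103 (.n 89 (.n 1639 (.n 93 (.n 99 (.n 259 (.n 98
  (.n 76 (.l 11526) (.l 10503)) (.l 8487)) (.l 10563)) (.l 8502)) (.n 98 (.n 1826 (.n 4167 (.l 11334) (.l
  14406)) (.l 8310)) (.n 258 (.n 72 (.l 14598) (.l 8562)) (.l 11586)))) (.n 27 (.n 1163 (.l 10452) (.l 9444))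
  (.n 102 (.n 98 (.n 333 (.n 1059 (.l 10515) (.l 13602)) (.l 14610)) (.l 9507)) (.n 1095 (.l 9255) (.l
  10263))))) (.n 27 (.n 1041 (.n 4297 (.l 8301) (.l 10317)) (.l 10437)) (.n 93 (.n 102 (.n 76 (.l 11538) (.l
  9522)) (.n 406 (.n 1155 (.l 10311) (.l 8295)) (.n 76 (.l 11286) (.l 9270)))) (.n 98 (.l 74034) (.l 74019)))))
  (.n 27 (.n 23 (.n 93 (.n 110 (.l 10002) (.l 9246)) (.n 22 (.l 17634) (.l 23586))) (.n 22 (.n 4169 (.n 6217 (.l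
  6258) (.l 7266)) (.n 4233 (.l 10353) (.l 11361))) (.l 9426))) (.n 23 (.n 22 (.l 25650) (.l 74802)) (.n 102 (.n
  1160 (.l 14358) (.l 13350)) (.n 406 (.l 25635) (.n 6217 (.l 74787) (.l 78882)))))))) (.n 103 (.n 110 (.n 93
  (.n 98 (.n 81 (.n 76 (.n 72 (.n 1414 (.n 68 (.n 386 (.l 6048) (.l 1953)) (.l 2961)) (.n 329 (.l 11025) (.l
  5922))) (.l 1890)) (.n 291 (.n 275 (.l 1197) (.l 2205)) (.l 1134))) (.n 89 (.n 68 (.n 102 (.l 7044) (.l 9993))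
  (.n 257 (.l 5025) (.l 7041))) (.n 321 (.l 6930) (.l 7056)))) (.n 102 (.n 89 (.n 16 (.n 386 (.l 5028) (.l
  10056)) (.l 19332)) (.n 258 (.n 72 (.l 6918) (.l 4902)) (.l 10050))) (.n 386 (.l 10017) (.l 10080)))) (.n 89
  (.n 102 (.l 18573) (.n 1073 (.n 4359 (.l 9417) (.l 4269)) (.l 6285))) (.n 365 (.n 1299 (.l 5292) (.l 6300))
  (.n 1171 (.l 6174) (.l 5166))))) (.n 27 (.n 102 (.n 89 (.n 414 (.n 365 (.n 1435 (.n 93 (.l 18630) (.l 18567))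
  (.n 1052 (.n 1299 (.l 9291) (.l 4263)) (.l 6279))) (.n 76 (.l 7332) (.l 6324))) (.n 76 (.l 11352) (.l 9336)))
  (.n 93 (.n 1074 (.n 4619 (.l 6342) (.l 4326)) (.l 9294)) (.n 76 (.l 7206) (.l 6198)))) (.n 93 (.n 414 (.n 1571
  (.l 10332) (.l 9324)) (.n 1123 (.l 9261) (.l 10269))) (.n 91 (.n 89 (.n 76 (.l 11289) (.l 9273)) (.l 27657))
  (.n 89 (.l 18642) (.l 27681))))) (.n 1417 (.n 1059 (.n 359 (.l 26631) (.n 4173 (.n 16679 (.l 9315) (.l 10323))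
  (.l 14418))) (.n 93 (.l 27654) (.l 13410))) (.n 89 (.l 30738) (.n 93 (.l 27666) (.n 6345 (.l 73767) (.l
  73782))))))) (.n 23 (.n 22 (.n 27 (.n 91 (.n 102 (.l 26637) (.l 39954)) (.n 4167 (.n 4231 (.n 4235 (.l 10449)
  (.l 9441)) (.l 5346)) (.l 6354))) (.n 4898 (.l 11346) (.l 9330))) (.n 30 (.n 110 (.n 98 (.l 70434) (.l 74529))
  (.n 66699 (.l 69858) (.l 73773))) (.l 76818))) (.n 91 (.n 1606 (.n 1043 (.n 411 (.l 18579) (.n 4238 (.n 16667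
  (.l 5283) (.l 6291)) (.l 13473))) (.n 110 (.l 39945) (.l 14481))) (.n 110 (.l 39969) (.n 102 (.l 26673) (.n
  6342 (.l 69795) (.l 73785))))) (.n 27 (.n 25 (.n 4881 (.l 7329) (.l 6321)) (.l 69678)) (.n 89 (.n 102 (.l
  26643) (.l 75795)) (.l 73842)))))))) = true := by
  decide +kernel

theorem c4410 : chk 4 4 1 0
  (.n 89 (.n 72 (.n 85 (.n 64 (.n 1366 (.n 1026 (.n 273 (.n 1124 (.n 1313 (.n 1056 (.l 6228) (.l 5400)) (.l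
  405)) (.l 1173)) (.l 597)) (.n 1032 (.n 1369 (.n 20569 (.n 5444 (.n 5201 (.n 65817 (.l 4440) (.l 17556)) (.l
  1605)) (.l 4692)) (.n 5209 (.l 1425) (.l 1428))) (.l 6405)) (.n 4114 (.l 17481) (.l 1413)))) (.n 256 (.n 1429
  (.n 1032 (.n 4229 (.n 65814 (.n 24853 (.n 66581 (.l 4185) (.l 4629)) (.l 4377)) (.n 5201 (.l 5268) (.l 5652)))
  (.l 5193)) (.l 5253)) (.n 5446 (.l 6417) (.l 6165))) (.n 69910 (.n 83202 (.l 5637) (.l 5385)) (.l 17553))))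
  (.n 66 (.n 1056 (.n 4168 (.n 341 (.l 5520) (.l 5697)) (.l 5505)) (.n 20569 (.n 4624 (.l 5700) (.l 5508)) (.l
  6468))) (.n 16 (.l 5448) (.n 69956 (.l 17736) (.l 17988))))) (.n 101 (.n 1381 (.n 64 (.n 1026 (.l 5208) (.n
  5401 (.l 1617) (.l 22533))) (.l 5712)) (.n 66117 (.n 5701 (.l 5649) (.l 5145)) (.l 22545))) (.n 21 (.l 5265)
  (.n 82961 (.l 69657) (.l 70161))))) (.n 66 (.n 258 (.n 1026 (.n 1366 (.n 1369 (.n 1381 (.n 21778 (.l 357) (.l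
  345)) (.l 1110)) (.n 5209 (.l 4389) (.l 4374))) (.n 85 (.n 1090 (.n 5400 (.l 5409) (.l 5157)) (.l 4182)) (.l
  1113))) (.n 256 (.n 1366 (.l 5220) (.l 5190)) (.n 1369 (.l 4452) (.l 5382)))) (.n 1048 (.n 1369 (.l 5472) (.l
  5442)) (.n 64 (.l 17478) (.l 9540)))) (.n 18 (.n 20569 (.l 1353) (.l 1362)) (.n 256 (.n 83014 (.l 5412) (.l
  342)) (.l 1350))))) (.n 342 (.n 1366 (.n 256 (.n 1032 (.n 16454 (.n 21577 (.l 4197) (.l 4449)) (.l 6213)) (.n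
  1302 (.n 20758 (.l 9285) (.l 9300)) (.l 9492))) (.n 64 (.n 4169 (.l 17490) (.l 9477)) (.l 6465))) (.n 1026 (.n
  1032 (.n 341 (.l 5394) (.l 5142)) (.l 21537)) (.l 9489))) (.n 22 (.n 86 (.n 1353 (.n 1032 (.l 5202) (.l 9297))
  (.n 85 (.l 69906) (.l 69654))) (.n 1056 (.l 6225) (.l 5217))) (.n 341 (.n 69906 (.l 21522) (.l 9237)) (.l
  69729))))) = true := by
  decide +kernel

end Pool.Agent.MP_3c4208_co.T3
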