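import Pool.Agent.MP_3c4208_co.T3.Alg

/-! Decision trees that separate the boards of one type. -/

namespace Pool.Agent.MP_3c4208_co.T3

theorem c4320 : chk 4 3 2 0
  (.n 26 (.n 102 (.n 85 (.n 98 (.n 64 (.n 89 (.n 386 (.n 81 (.n 68 (.n 406 (.n 321 (.n 1622 (.n 1382 (.l 4708)
  (.l 4504)) (.l 6409)) (.l 1669)) (.l 17482)) (.l 661)) (.n 321 (.l 613) (.l 1684))) (.n 72 (.n 1058 (.n 1538
  (.n 5273 (.l 4378) (.l 4393)) (.l 1432)) (.n 17510 (.l 5386) (.l 4456))) (.l 361))) (.n 342 (.n 386 (.n 1122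
  (.l 6244) (.l 1174)) (.l 1426)) (.l 6433))) (.n 16 (.n 89 (.n 1058 (.n 321 (.n 1160 (.n 17510 (.l 5512) (.l
  6472)) (.l 5506)) (.l 6724)) (.n 386 (.l 9796) (.l 9604))) (.l 6496)) (.n 18504 (.l 17992) (.l 17800)))) (.n
  72 (.n 256 (.n 296 (.n 4629 (.l 6424) (.l 409)) (.n 273 (.n 5522 (.l 406) (.l 5416)) (.l 598))) (.n 1032 (.l
  1606) (.n 296 (.l 1417) (.l 1414)))) (.n 66 (.l 346) (.l 1354)))) (.n 21 (.n 406 (.n 64 (.n 276 (.n 98 (.n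
  1093 (.n 256 (.n 19013 (.l 4645) (.l 4630)) (.n 5184 (.l 5638) (.l 6661))) (.n 325 (.l 17545) (.l 4696))) (.l
  5668)) (.n 325 (.n 256 (.l 5656) (.l 1609)) (.l 601))) (.n 386 (.n 1040 (.l 5698) (.l 5764)) (.l 5704))) (.n
  1637 (.n 64 (.n 72 (.n 256 (.n 1058 (.n 4130 (.l 1177) (.l 6232)) (.l 5224)) (.n 1093 (.l 1618) (.l 1681)))
  (.l 1114)) (.n 1093 (.l 5728) (.l 5776))) (.n 89 (.n 1058 (.n 5410 (.l 5254) (.l 4186)) (.l 5194)) (.l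
  6181)))) (.n 256 (.n 1297 (.n 1154 (.n 4130 (.n 5124 (.n 5702 (.l 5665) (.l 6169)) (.l 6673)) (.l 5257)) (.l
  5161)) (.n 1092 (.l 4249) (.l 4633))) (.n 64 (.l 5641) (.l 5761))))) (.n 89 (.n 85 (.n 81 (.n 321 (.n 256 (.n
  1032 (.n 5254 (.l 6217) (.l 4201)) (.l 9349)) (.n 361 (.l 17560) (.l 9733))) (.n 64 (.l 4705) (.l 6721))) (.l
  9748)) (.n 21 (.n 357 (.n 16453 (.l 9745) (.l 5650)) (.n 361 (.l 5272) (.l 5146))) (.l 70162))) (.n 86 (.n 85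
  (.n 406 (.l 22600) (.n 4230 (.l 9364) (.l 17554))) (.n 361 (.l 22537) (.l 22561))) (.n 21 (.n 22 (.n 4230 (.l
  9361) (.l 5266)) (.l 6241)) (.n 361 (.l 38929) (.l 69658)))))) (.n 102 (.n 98 (.n 85 (.n 64 (.n 256 (.n 89 (.n
  1544 (.n 1625 (.n 68 (.n 4130 (.n 5222 (.l 1189) (.l 4513)) (.l 9496)) (.l 2197)) (.n 4386 (.n 5222 (.l 10513)
  (.l 6418)) (.l 6214))) (.n 72 (.n 1032 (.n 4386 (.n 1382 (.l 4450) (.l 5410)) (.l 4198)) (.l 9286)) (.l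
  1126))) (.n 342 (.l 9490) (.l 69922))) (.n 386 (.n 321 (.n 1544 (.n 1625 (.n 1382 (.l 17572) (.l 9481)) (.l
  10501)) (.l 9478)) (.n 1105 (.l 2449) (.l 2437))) (.n 290 (.l 1441) (.l 1378)))) (.n 1056 (.n 1625 (.n 1160
  (.n 1433 (.l 6544) (.l 6529)) (.l 5536)) (.l 6466)) (.n 1160 (.l 6532) (.l 10564)))) (.n 21 (.n 406 (.n 357
  (.n 256 (.n 1160 (.n 4116 (.n 6276 (.n 73797 (.l 6277) (.l 6292)) (.l 4261)) (.l 9289)) (.l 5284)) (.l 18565))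
  (.n 1160 (.l 6166) (.l 5158))) (.n 89 (.n 1058 (.l 9304) (.l 22534)) (.l 9298))) (.n 89 (.n 1433 (.l 18577)
  (.l 26641)) (.l 69670)))) (.n 72 (.n 386 (.n 89 (.n 1105 (.n 1382 (.n 1622 (.n 1433 (.l 4516) (.l 8485)) (.l
  6406)) (.l 9505)) (.l 421)) (.l 74017)) (.n 64 (.n 256 (.l 9508) (.l 1444)) (.n 16 (.l 9544) (.l 18820)))) (.n
  258 (.n 1170 (.n 386 (.l 8548) (.l 4390)) (.l 358)) (.n 1382 (.l 9538) (.l 9568))))) (.n 89 (.n 21 (.n 85 (.n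
  406 (.n 1544 (.l 10324) (.l 9316)) (.n 1160 (.l 10261) (.l 9253))) (.n 406 (.l 17569) (.n 65814 (.l 9241) (.l
  22546)))) (.n 1414 (.n 4356 (.l 5281) (.l 6289)) (.l 69793))) (.n 85 (.n 22 (.n 1622 (.n 406 (.n 16454 (.l
  8293) (.l 10309)) (.l 17506)) (.n 5190 (.l 21538) (.l 9238))) (.l 74770)) (.n 1417 (.n 406 (.l 25633) (.n 1160
  (.n 16662 (.n 16677 (.l 9313) (.l 10321)) (.l 6226)) (.l 5218))) (.n 66697 (.l 69730) (.l 73765))))))) = true := by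
  decide +kernel

theorem c4311 : chk 4 3 1 1
  (.n 27 (.n 87 (.n 89 (.n 99 (.n 76 (.n 93 (.n 66 (.n 85 (.n 68 (.n 67 (.n 1383 (.n 262 (.l 1733) (.l 1925))
  (.l 4508)) (.l 5516)) (.n 82 (.l 725) (.l 917))) (.n 64 (.n 338 (.n 339 (.n 1059 (.n 1604 (.l 4700) (.l 4952))
  (.l 17549)) (.l 5660)) (.n 72 (.l 5912) (.l 857))) (.n 67 (.n 1552 (.l 5828) (.l 6020)) (.l 5708)))) (.n 16
  (.n 72 (.n 342 (.l 5576) (.l 5960)) (.l 1865)) (.n 69964 (.n 19528 (.l 18248) (.l 17804)) (.l 17996)))) (.n 66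
  (.n 343 (.n 103 (.n 327 (.l 7748) (.l 1748)) (.l 17624)) (.n 85 (.l 7433) (.l 7685))) (.n 72 (.l 7496) (.l
  1496)))) (.n 387 (.n 407 (.n 275 (.n 259 (.n 333 (.n 1347 (.l 5639) (.l 4631)) (.n 343 (.l 4724) (.l 4661)))
  (.n 343 (.l 13892) (.l 5699))) (.n 93 (.l 605) (.l 629))) (.n 1059 (.n 5411 (.l 5255) (.l 4187)) (.n 343 (.l
  17483) (.l 5195)))) (.n 259 (.n 291 (.n 1059 (.n 333 (.l 4379) (.l 4409)) (.n 343 (.l 4472) (.l 5387))) (.l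
  377)) (.n 67 (.n 1059 (.l 5507) (.l 13700)) (.l 1613))))) (.n 19 (.n 18 (.n 67 (.n 66 (.n 76 (.n 72 (.l 6428)
  (.l 473)) (.l 413)) (.l 1481)) (.l 1421)) (.n 76 (.n 1878 (.n 1094 (.n 1036 (.n 1494 (.l 1862) (.l 470)) (.l
  1478)) (.l 854)) (.n 85 (.l 5420) (.l 5924))) (.n 67 (.l 350) (.l 1358)))) (.n 72 (.n 1623 (.n 1095 (.n 1032
  (.n 1431 (.l 1607) (.l 407)) (.l 1415)) (.l 599)) (.n 85 (.l 5432) (.l 5684))) (.n 66 (.l 347) (.l 1355)))))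
  (.n 86 (.n 374 (.n 342 (.n 450 (.n 326 (.n 470 (.n 262 (.n 258 (.l 4964) (.l 10052)) (.l 6980)) (.l 17486))
  (.n 72 (.l 1940) (.l 869))) (.n 76 (.n 67 (.n 258 (.l 4460) (.l 9668)) (.l 6476)) (.n 67 (.l 365) (.l 1436))))
  (.n 450 (.n 470 (.n 1346 (.n 72 (.n 85 (.l 6413) (.l 6917)) (.l 5894)) (.n 258 (.n 1302 (.l 4901) (.l 4886))
  (.l 5954))) (.n 1074 (.n 5426 (.l 5318) (.l 4190)) (.l 5198))) (.n 1794 (.n 329 (.l 4382) (.l 4397)) (.n 258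
  (.l 5390) (.l 5570))))) (.n 343 (.n 118 (.n 72 (.n 67 (.n 387 (.n 1123 (.l 6260) (.l 1175)) (.l 6512)) (.l
  1427)) (.n 66 (.n 450 (.n 1138 (.l 7268) (.l 1238)) (.l 7520)) (.l 1490))) (.n 93 (.l 17564) (.l 22604))) (.n
  85 (.n 72 (.l 6449) (.l 7457)) (.n 291 (.l 6197) (.l 7205))))) (.n 22 (.n 118 (.n 76 (.n 72 (.n 262 (.n 1123
  (.l 6032) (.l 6236)) (.l 1937)) (.n 66 (.n 258 (.l 5228) (.l 5984)) (.l 1874))) (.n 291 (.l 1181) (.l 1118)))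
  (.n 93 (.l 5276) (.l 23561))) (.n 85 (.n 93 (.n 81 (.n 256 (.n 321 (.n 1032 (.n 1555 (.l 6221) (.l 4205)) (.l
  9413)) (.l 4961)) (.n 64 (.l 9989) (.l 6977))) (.l 10004)) (.n 5191 (.l 17618) (.l 9428))) (.n 93 (.n 373 (.n
  1026 (.l 5906) (.l 10001)) (.l 5150)) (.l 23585)))))) (.n 23 (.n 89 (.n 21 (.n 76 (.n 103 (.n 72 (.n 263 (.n
  1138 (.l 5840) (.l 7256)) (.l 1745)) (.l 1241)) (.l 5336)) (.n 67 (.n 291 (.n 259 (.l 5240) (.l 5744)) (.l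
  1115)) (.l 1619))) (.n 93 (.n 64 (.n 4131 (.n 1027 (.n 1809 (.n 1553 (.l 4253) (.l 4889)) (.l 4637)) (.n 6161
  (.l 5645) (.l 5897))) (.n 1059 (.l 5261) (.l 5321))) (.n 5192 (.l 5825) (.l 6017))) (.n 76 (.n 5703 (.l 7697)
  (.l 7193)) (.n 1155 (.l 5681) (.l 5177))))) (.n 22 (.n 118 (.n 72 (.n 5958 (.l 6929) (.l 6173)) (.n 1218 (.l
  5921) (.l 5165))) (.n 21 (.l 22541) (.l 39953))) (.n 21 (.n 4231 (.l 9425) (.l 5330)) (.n 93 (.l 70418) (.l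
  69662))))) (.n 86 (.n 85 (.n 89 (.n 81 (.n 256 (.n 321 (.n 1036 (.n 1810 (.l 7241) (.l 4217)) (.l 13445)) (.l
  4721)) (.n 64 (.l 13829) (.l 7745))) (.l 13844)) (.n 5190 (.l 17555) (.l 13460))) (.n 89 (.n 357 (.n 1027 (.l
  5651) (.l 13841)) (.l 5147)) (.l 22577))) (.n 22 (.n 21 (.n 4294 (.l 13457) (.l 5267)) (.n 89 (.l 70163) (.l
  69659))) (.n 1056 (.l 6257) (.l 7265)))))) (.n 118 (.n 93 (.n 99 (.n 89 (.n 76 (.n 85 (.n 72 (.n 1398 (.n 259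
  (.n 1036 (.l 2516) (.l 2501)) (.n 6165 (.l 6596) (.l 7556))) (.n 68 (.n 259 (.l 2513) (.l 6608)) (.l 2261)))
  (.n 66 (.n 1074 (.n 258 (.l 1253) (.l 5600)) (.n 64 (.l 17636) (.l 11588))) (.l 1505))) (.n 21 (.n 1431 (.n
  1893 (.n 5411 (.l 18629) (.l 18644)) (.l 7316)) (.n 72 (.l 6356) (.l 5348))) (.l 18641))) (.n 67 (.n 259 (.n
  291 (.n 342 (.l 1205) (.l 5300)) (.l 1127)) (.n 1383 (.n 64 (.l 17588) (.l 14660)) (.l 5552))) (.n 291 (.l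
  1457) (.l 1379)))) (.n 76 (.n 86 (.n 85 (.n 1494 (.n 1027 (.n 342 (.l 9500) (.l 4577)) (.n 1155 (.l 6593) (.l
  9485))) (.n 342 (.l 11525) (.n 5238 (.l 11537) (.l 7442)))) (.n 1494 (.n 1074 (.n 4179 (.l 4325) (.l 6341))
  (.l 9293)) (.l 7190))) (.n 21 (.n 1059 (.l 9308) (.l 23558)) (.l 27665))) (.n 342 (.n 1878 (.n 259 (.n 1027
  (.l 4451) (.l 9479)) (.l 6467)) (.n 4195 (.n 4131 (.l 4199) (.l 9287)) (.l 6215))) (.n 1539 (.l 5174) (.l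
  5426))))) (.n 67 (.n 450 (.n 72 (.n 89 (.n 1299 (.n 1623 (.l 4532) (.l 6407)) (.l 437)) (.n 342 (.l 8501) (.l
  9521))) (.n 76 (.n 1298 (.n 1878 (.l 4580) (.l 7430)) (.l 485)) (.l 8564))) (.n 18 (.n 258 (.n 6231 (.l 4406)
  (.l 4391)) (.n 66 (.n 1383 (.l 9539) (.l 9584)) (.l 13640))) (.n 76 (.l 1508) (.l 374)))) (.n 19 (.n 66 (.l
  9548) (.l 18884)) (.n 89 (.n 72 (.l 1460) (.l 359)) (.l 9524))))) (.n 407 (.n 343 (.n 114 (.n 1218 (.n 72 (.n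
  1303 (.l 14597) (.l 13592)) (.n 258 (.l 7238) (.l 7490))) (.n 4146 (.n 1623 (.l 4466) (.l 4214)) (.n 1623 (.l
  13574) (.l 13382)))) (.n 18 (.l 8561) (.l 13604))) (.n 85 (.n 72 (.n 1431 (.n 258 (.n 1059 (.l 4529) (.l
  13577)) (.l 7553)) (.n 5223 (.l 14609) (.l 6419))) (.n 114 (.l 5411) (.l 13601))) (.n 1431 (.n 1059 (.n 4178
  (.l 4277) (.l 7301)) (.l 13385)) (.n 291 (.l 6167) (.l 5159))))) (.n 87 (.n 99 (.n 342 (.n 1059 (.l 9491) (.l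
  13586)) (.l 69923)) (.l 74033)) (.n 21 (.n 86 (.n 1074 (.l 13400) (.l 22535)) (.n 1059 (.l 9299) (.l 13394)))
  (.n 359 (.l 30737) (.l 69671)))))) (.n 87 (.n 22 (.n 86 (.n 343 (.n 89 (.n 291 (.l 14420) (.l 13412)) (.n 93
  (.n 306 (.l 11348) (.l 9332)) (.n 407 (.n 4167 (.n 4166 (.l 8309) (.l 11333)) (.l 14405)) (.l 17507)))) (.n 89
  (.l 17585) (.n 93 (.l 17633) (.l 25649)))) (.n 1059 (.n 1155 (.n 16663 (.l 14417) (.l 6227)) (.l 5219)) (.l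
  13409))) (.n 93 (.n 85 (.n 76 (.l 11285) (.l 9269)) (.n 5196 (.l 23570) (.l 9245))) (.n 343 (.n 5191 (.l
  21554) (.l 9239)) (.n 17458 (.l 69731) (.l 73781))))) (.n 23 (.n 86 (.n 1074 (.n 1218 (.n 16662 (.l 11345) (.l
  7250)) (.l 5234)) (.l 9329)) (.n 22 (.n 89 (.n 4290 (.l 7313) (.l 5297)) (.n 4227 (.l 6353) (.l 5345))) (.l
  69857))) (.n 89 (.n 21 (.n 85 (.n 72 (.l 14357) (.l 13349)) (.n 5192 (.l 22547) (.l 13337))) (.l 69809)) (.n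
  22 (.n 342 (.n 5190 (.l 21539) (.l 13334)) (.n 17443 (.l 69746) (.l 73841))) (.l 74771))))))) = true := by
  decide +kernel

theorem c3330 : chk 3 3 3 0
  (.n 106 (.n 85 (.n 64 (.n 102 (.n 98 (.n 81 (.n 89 (.n 72 (.n 68 (.n 358 (.n 324 (.l 6426) (.l 9765)) (.l
  21672)) (.n 361 (.n 276 (.l 4710) (.n 4641 (.l 10773) (.l 4713))) (.l 34965))) (.n 406 (.n 386 (.l 4521) (.n
  4370 (.l 5418) (.l 4458))) (.l 17514))) (.n 386 (.n 1446 (.l 22602) (.n 17048 (.l 9366) (.l 21546))) (.l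
  69930))) (.n 20 (.n 277 (.n 321 (.n 68 (.l 9750) (.l 8805)) (.n 6278 (.l 1701) (.l 1686))) (.l 2457)) (.l
  2709))) (.n 24 (.n 72 (.n 298 (.n 1625 (.n 4425 (.l 1449) (.l 1434)) (.l 6441)) (.l 1638)) (.l 4506)) (.l
  1386))) (.n 89 (.n 425 (.n 1625 (.l 17562) (.n 16740 (.l 6249) (.l 39009))) (.l 75282)) (.n 22 (.l 22632) (.l
  74898)))) (.n 16 (.n 386 (.n 68 (.n 1297 (.n 102 (.n 321 (.n 1186 (.n 1446 (.l 39201) (.l 22050)) (.n 17450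
  (.l 9798) (.l 9828))) (.l 6756)) (.l 6753)) (.n 81 (.n 1041 (.n 1160 (.l 10836) (.l 9861)) (.n 18453 (.l 6537)
  (.l 6552))) (.l 9876))) (.n 276 (.n 81 (.l 6726) (.l 10821)) (.l 6729))) (.n 98 (.n 72 (.n 89 (.n 1186 (.l
  9624) (.n 1092 (.l 5544) (.l 6474))) (.l 9618)) (.n 296 (.l 9609) (.l 9606))) (.n 72 (.l 6504) (.l 5514))))
  (.n 1186 (.n 1105 (.n 1446 (.n 1625 (.n 1348 (.l 18018) (.l 35217)) (.l 22794)) (.l 18066)) (.n 68 (.n 1160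
  (.n 1108 (.l 22920) (.l 18072)) (.l 18825)) (.l 23112))) (.n 98 (.n 1092 (.n 1192 (.l 17994) (.l 17832)) (.l
  18084)) (.l 17802))))) (.n 21 (.n 64 (.n 406 (.n 81 (.n 276 (.n 1638 (.n 1637 (.n 1544 (.n 5734 (.l 22680) (.l
  22665)) (.l 17577)) (.l 5670)) (.n 6422 (.l 70242) (.l 74277))) (.n 98 (.n 68 (.n 4165 (.n 5714 (.l 6678) (.l
  6693)) (.l 5658)) (.l 4698)) (.l 1626))) (.n 321 (.n 68 (.l 9753) (.l 4773)) (.l 1689))) (.n 102 (.n 89 (.n 72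
  (.n 1446 (.l 6234) (.n 16485 (.l 9369) (.l 22554))) (.l 5226)) (.n 1446 (.l 38949) (.l 69738))) (.n 89 (.l
  5274) (.l 22569)))) (.n 16 (.n 276 (.n 406 (.n 1093 (.n 1637 (.n 1186 (.n 1066 (.l 9825) (.l 5730)) (.l 5736))
  (.n 1296 (.l 26145) (.l 23073))) (.n 325 (.n 1041 (.n 1570 (.n 1297 (.l 6738) (.l 10833)) (.l 5766)) (.l
  5796)) (.n 321 (.l 23058) (.l 6744)))) (.n 1701 (.n 4177 (.l 9873) (.l 5778)) (.l 9810))) (.n 68 (.n 1093 (.n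
  1186 (.n 1092 (.l 9816) (.l 9801)) (.l 5706)) (.l 5784)) (.n 27028 (.l 6789) (.l 6804)))) (.n 337 (.n 1092 (.n
  1093 (.l 23046) (.l 18081)) (.l 23049)) (.n 276 (.l 18057) (.l 19077))))) (.n 64 (.n 1297 (.n 102 (.n 1446 (.n
  1186 (.n 1544 (.n 1284 (.l 70182) (.l 38937)) (.l 5289)) (.l 5673)) (.n 1449 (.l 70170) (.l 69801))) (.l
  69786)) (.n 81 (.n 1089 (.n 1638 (.l 18585) (.l 70305)) (.n 1281 (.l 6297) (.l 6681))) (.l 4761))) (.n 324 (.n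
  272 (.n 1297 (.n 1296 (.l 5793) (.l 27153)) (.l 5769)) (.l 39441)) (.n 16 (.l 6801) (.l 19089)))))) (.n 26 (.n
  85 (.n 64 (.n 361 (.n 98 (.n 296 (.n 1625 (.n 1544 (.n 1105 (.l 26697) (.l 10521)) (.n 4386 (.l 17574) (.l
  25704))) (.n 5222 (.l 70050) (.l 74025))) (.n 81 (.n 72 (.n 4234 (.n 6561 (.l 9513) (.l 9498)) (.l 10533)) (.l
  8553)) (.l 2454))) (.n 386 (.n 72 (.l 6438) (.l 4518)) (.l 1446))) (.n 102 (.n 89 (.n 68 (.n 5530 (.n 16538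
  (.l 6246) (.l 26721)) (.l 9381)) (.l 10389)) (.l 10341)) (.n 89 (.n 406 (.l 21666) (.l 74778)) (.l 22626))))
  (.n 296 (.n 16 (.n 361 (.n 1162 (.n 1434 (.n 1105 (.n 1045 (.l 6546) (.l 10641)) (.l 10644)) (.n 1568 (.l
  39186) (.l 22818))) (.n 394 (.n 1058 (.n 1297 (.n 1570 (.l 9633) (.l 5538)) (.l 10569)) (.l 10584)) (.n 386
  (.l 26913) (.l 9636)))) (.n 1370 (.n 4250 (.l 10593) (.l 6498)) (.l 6561))) (.n 394 (.n 1162 (.l 18834) (.n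
  1160 (.l 26889) (.l 17826))) (.l 26952))) (.n 72 (.n 1162 (.n 1105 (.n 1160 (.l 6564) (.l 6534)) (.l 10629))
  (.n 16 (.l 10596) (.l 18822))) (.n 22120 (.l 9546) (.l 9576))))) (.n 21 (.n 361 (.n 406 (.n 1434 (.n 1637 (.n
  296 (.n 1162 (.n 1344 (.l 22692) (.l 18582)) (.l 26712)) (.l 22662)) (.n 276 (.l 5286) (.l 6294))) (.n 1637
  (.n 296 (.l 10329) (.l 9321)) (.n 345 (.l 25641) (.l 38934)))) (.n 410 (.n 1544 (.n 16549 (.l 26661) (.l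
  22566)) (.l 9306)) (.l 74793))) (.n 89 (.n 1434 (.n 1284 (.n 1433 (.l 22674) (.l 22689)) (.l 6309)) (.l
  73833)) (.n 16937 (.l 70818) (.l 74913)))) (.n 102 (.n 410 (.n 1433 (.n 1434 (.l 26769) (.l 26649)) (.l
  69798)) (.l 75801)) (.l 71826)))) (.n 85 (.n 64 (.n 102 (.n 98 (.n 1570 (.n 1625 (.n 1105 (.n 1284 (.n 1544
  (.l 76050) (.l 25638)) (.l 10326)) (.l 10518)) (.n 1622 (.l 75042) (.l 74790))) (.n 1544 (.n 1625 (.l 26694)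
  (.l 74022)) (.n 1538 (.l 9318) (.l 9510)))) (.l 8550)) (.l 91170)) (.n 392 (.n 288 (.n 1570 (.n 1568 (.l
  10578) (.l 26898)) (.l 10566)) (.l 25890)) (.n 16 (.l 9570) (.l 26886)))) (.n 406 (.n 357 (.n 1638 (.n 1637
  (.l 26646) (.l 26706)) (.l 75798)) (.l 73830)) (.n 21 (.l 74850) (.l 75858)))))) = true := by
  decide +kernel

end Pool.Agent.MP_3c4208_co.T3
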