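import Pool.Agent.MP_3c4208_co.T3.Brd
import Pool.Agent.MP_3c4208_co.T3.PosA
import Pool.Agent.MP_3c4208_co.T3.PosB
import Pool.Agent.MP_3c4208_co.T3.PosC

/-! Boards of side three: reduction to at most four letters. -/

namespace Pool.Agent.MP_3c4208_co.T3

theorem sum4 (l : List ℕ) (h : ∀ x ∈ l, x < 4) :
    l.count 0 + l.count 1 + l.count 2 + l.count 3 = l.length := by
  induction l with
  | nil => rfl
  | cons x l ih =>
    have := ih fun y hy => h y (by simp [hy])
    have hx := h x (by simp)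
    simp only [List.count_cons, List.length_cons, beq_iff_eq]
    split_ifs <;> omega

/-- the thirteen tabulated types -/
theorem good {B B' : C → ℕ} (h : ∀ c, B c < 4) (h1 : cnt B 1 ≤ cnt B 0) (h2 : cnt B 2 ≤ cnt B 1)
    (h3 : cnt B 3 ≤ cnt B 2) (nb : cnt B 1 = 0 ∨ 1 ≤ cnt B 2 ∧ (cnt B 0 ≠ 7 ∨ 1 ≤ cnt B 3))
    (e : words B' = words B) : Sy B B' := by
  have s : cnt B 0 + cnt B 1 + cnt B 2 + cnt B 3 = 9 := sum4 (L.map B) fun x hx => by
    obtain ⟨c, -, rfl⟩ := List.mem_map.1 hx
    exact h c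
  have k : ∀ {a b c d t}, chk a b c d t = true →
      cnt B 0 = a ∧ cnt B 1 = b ∧ cnt B 2 = c ∧ cnt B 3 = d → Sy B B' := by
    rintro _ _ _ _ t k ⟨rfl, rfl, rfl, rfl⟩
    exact core h k e
  generalize cnt B 0 = a, cnt B 1 = b, cnt B 2 = c, cnt B 3 = d at *
  have hd : d ≤ 2 := by omega
  have hc : c ≤ 3 := by omega
  have hb : b ≤ 4 := by omega
  interval_cases d <;> interval_cases c <;> interval_cases b <;> first
    | omega
    | exact k c9000 (by omega) | exact k c6210 (by omega) | exact k c5310 (by omega)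
    | exact k c5220 (by omega) | exact k c4410 (by omega) | exact k c4320 (by omega)
    | exact k c3330 (by omega) | exact k c6111 (by omega) | exact k c5211 (by omega)
    | exact k c4311 (by omega) | exact k c4221 (by omega) | exact k c3321 (by omega)
    | exact k c3222 (by omega)

/-- renaming of the letters -/
theorem rel {B B' : C → ℕ} (x : Fin 4 → ℕ) (hx : Function.Injective x) (h : ∀ c, ∃ i, x i = B c)
    (h1 : cnt B (x 1) ≤ cnt B (x 0)) (h2 : cnt B (x 2) ≤ cnt B (x 1))
    (h3 : cnt B (x 3) ≤ cnt B (x 2))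
    (nb : cnt B (x 1) = 0 ∨ 1 ≤ cnt B (x 2) ∧ (cnt B (x 0) ≠ 7 ∨ 1 ≤ cnt B (x 3)))
    (e : words B' = words B) : Sy B B' := by
  let f : ℕ → ℕ := fun y => (Function.invFun x y : Fin 4)
  have fx : ∀ i, f (x i) = i := fun i => congrArg Fin.val (Function.leftInverse_invFun hx i)
  have ct : ∀ i : Fin 4, cnt (f ∘ B) i = cnt B (x i) := fun i => by
    simp only [cnt, List.count_eq_countP, List.countP_map]
    refine List.countP_congr fun c _ => ?_
    obtain ⟨j, hj⟩ := h c
    simp only [Function.comp, ← hj, fx, beq_iff_eq, hx.eq_iff, Fin.val_inj]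
  have c0 : cnt (f ∘ B) 0 = _ := ct 0
  have c1 : cnt (f ∘ B) 1 = _ := ct 1
  have c2 : cnt (f ∘ B) 2 = _ := ct 2
  have c3 : cnt (f ∘ B) 3 = _ := ct 3
  obtain ⟨s, hs⟩ := good (B := f ∘ B) (B' := f ∘ B') (fun c => Fin.is_lt _) (by omega) (by omega)
    (by omega) (by omega) (words_map f e)
  refine ⟨s, funext fun c => ?_⟩
  obtain ⟨d, hd⟩ := mem_of e c
  obtain ⟨i, hi⟩ := h d
  obtain ⟨j, hj⟩ := h (sy s c)
  have u : f (B' c) = f (B (sy s c)) := congrFun hs c
  rw [← hd, ← hi, ← hj, fx, fx, Fin.val_inj] at u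
  rw [← hd, ← hi, u, hj, Function.comp]

theorem cnt_pos (B : C → ℕ) (c : C) : 1 ≤ cnt B (B c) :=
  List.count_pos_iff.2 (List.mem_map_of_mem ((by decide : ∀ c : C, c ∈ L) c))

theorem four {B B' : C → ℕ} (h : (Finset.univ.image B).card = 4) (e : words B' = words B) :
    Sy B B' := by
  let y := (Finset.univ.image B).orderEmbOfFin h
  let σ := Tuple.sort fun i => cnt B (y i)
  have m : Monotone ((fun i => cnt B (y i)) ∘ σ) := Tuple.monotone_sort _
  have p : ∀ i, 1 ≤ cnt B (y i) := fun i => by
    obtain ⟨c, -, hc⟩ := Finset.mem_image.1 (Finset.orderEmbOfFin_mem _ h i)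
    exact hc ▸ cnt_pos B c
  refine rel (fun i => y (σ i.rev)) (y.injective.comp (σ.injective.comp Fin.rev_injective))
    (fun c => ?_) (m (by decide)) (m (by decide)) (m (by decide)) (.inr ⟨p _, .inr (p _)⟩) e
  have : B c ∈ Set.range y := by
    rw [Finset.range_orderEmbOfFin]
    exact Finset.mem_coe.2 (Finset.mem_image_of_mem _ (Finset.mem_univ c))
  obtain ⟨i, hi⟩ := this
  exact ⟨(σ.symm i).rev, by simpa using hi⟩

/-- merging two letters: ten pairs, eight symmetries -/
theorem many (n : ℕ) : ∀ {B B' : C → ℕ}, (Finset.univ.image B).card = n + 4 →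
    words B' = words B → Sy B B' := by
  induction n with
  | zero => exact four
  | succ n ih =>
    intro B B' h e
    let y := (Finset.univ.image B).orderEmbOfCardLe (k := 5) (by omega)
    have ym : ∀ i, y i ∈ Finset.univ.image B := Finset.orderEmbOfCardLe_mem _ _
    let f : {p : Fin 5 × Fin 5 // p.1 < p.2} → ℕ → ℕ := fun p z => if z = y p.1.2 then y p.1.1 else z
    have k : ∀ p, Sy (f p ∘ B) (f p ∘ B') := fun p => by
      refine ih ?_ (words_map _ e)
      have : Finset.univ.image (f p ∘ B) = (Finset.univ.image B).erase (y p.1.2) := by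
        ext z
        rw [Finset.mem_erase, Finset.mem_image]
        constructor
        · rintro ⟨c, -, rfl⟩
          by_cases u : B c = y p.1.2
          · rw [show (f p ∘ B) c = y p.1.1 from if_pos u]
            exact ⟨(y.strictMono p.2).ne, ym _⟩
          · rw [show (f p ∘ B) c = B c from if_neg u]
            exact ⟨u, Finset.mem_image_of_mem _ (Finset.mem_univ c)⟩
        · rintro ⟨u, v⟩
          obtain ⟨c, -, rfl⟩ := Finset.mem_image.1 v
          exact ⟨c, Finset.mem_univ c, if_neg u⟩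
      rw [this, Finset.card_erase_of_mem (ym _), h]
      rfl
    choose s hs using k
    obtain ⟨p, q, pq, spq⟩ := Fintype.exists_ne_map_eq_of_card_lt s (by decide)
    refine ⟨s p, funext fun c => ?_⟩
    have a : f p (B' c) = f p (B (sy (s p) c)) := congrFun (hs p) c
    have b : f q (B' c) = f q (B (sy (s q) c)) := congrFun (hs q) c
    rw [← spq] at b
    by_contra u
    have a1 := y.strictMono p.2
    have b1 := y.strictMono q.2
    have : y p.1.1 = y q.1.1 ∧ y p.1.2 = y q.1.2 := by
      simp only [f, Function.comp] at a b u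
      split_ifs at a b <;> omega
    exact pq (Subtype.ext (Prod.ext (y.injective this.1) (y.injective this.2)))

end Pool.Agent.MP_3c4208_co.T3
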